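import Mathlib

/-!
Forms on the projective plane and the definitions for the problem on curves parameterizable by
cubics.
-/

namespace Q45.Forms

open MvPolynomial

/-- Simultaneous evaluation of a family of polynomials. -/
noncomputable def ev {K ι σ : Type*} [Field K] (P : ι → MvPolynomial σ K) (x : σ → K) : ι → K :=
  fun i => eval x (P i)

/-- The members of the family have no common factor except constants. -/
def NoCommonFactor {K ι σ : Type*} [Field K] (P : ι → MvPolynomial σ K) : Prop :=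
  ∀ D : MvPolynomial σ K, (∀ i, D ∣ P i) → IsUnit D

/-- An irreducible form, the equation of a plane curve. -/
def IsPlaneCurve {K : Type*} [Field K] (E : MvPolynomial (Fin 3) K) : Prop :=
  Irreducible E ∧ ∃ d, E.IsHomogeneous d

/-- The plane curve `E = 0` is parameterizable by the pair `F` of forms of degree `d` without
common factor: there are forms `u₀, u₁, u₂` of the same degree in two variables, without common
factor, such that `t ↦ u(t)` maps to the curve, `F(u(t)) = t` and `u(F(x)) = x` projectively,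
wherever defined, and `F` is defined at some point of the curve. -/
def ParamBy {K : Type*} [Field K] (E : MvPolynomial (Fin 3) K) (d : ℕ)
    (F : Fin 2 → MvPolynomial (Fin 3) K) : Prop :=
  (∀ i, (F i).IsHomogeneous d) ∧ NoCommonFactor F ∧
    ∃ (m : ℕ) (u : Fin 3 → MvPolynomial (Fin 2) K),
      (∀ i, (u i).IsHomogeneous m) ∧ NoCommonFactor u ∧
      (∀ t, eval (ev u t) E = 0) ∧
      (∀ t, ∃ c : K, ev F (ev u t) = c • t) ∧
      (∀ x, eval x E = 0 → ev F x ≠ 0 → ∃ c : K, c ≠ 0 ∧ ev u (ev F x) = c • x) ∧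
      ∃ x, eval x E = 0 ∧ ev F x ≠ 0

/-- The curve `E = 0` is the Zariski closure of the image of the curve `E₀ = 0` under the rational
map given by `G`. -/
def IsClosureOfImage {K : Type*} [Field K] (E E₀ : MvPolynomial (Fin 3) K)
    (G : Fin 3 → MvPolynomial (Fin 3) K) : Prop :=
  ∀ y : Fin 3 → K, y ≠ 0 → (eval y E = 0 ↔
    ∀ (n : ℕ) (P : MvPolynomial (Fin 3) K), P.IsHomogeneous n →
      (∀ x, eval x E₀ = 0 → ev G x ≠ 0 → eval (ev G x) P = 0) → eval y P = 0)

/-- The curve `E = 0` belongs to the class `𝒮`: it is the closure of `Λ(C₀)`, where `Λ` is given by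
the forms `G` of the same degree without common factor, its inverse by the cubic forms `F`, and
`C₀` is a plane curve parameterizable by lines and singular at `(0:0:1)`. -/
def InS {K : Type*} [Field K] (E : MvPolynomial (Fin 3) K) : Prop :=
  ∃ (G F : Fin 3 → MvPolynomial (Fin 3) K) (E₀ : MvPolynomial (Fin 3) K),
    (∃ m, ∀ i, (G i).IsHomogeneous m) ∧ NoCommonFactor G ∧ (∀ i, (F i).IsHomogeneous 3) ∧
    (∀ x, ∃ c : K, ev F (ev G x) = c • x) ∧ (∃ x, ev F (ev G x) ≠ 0) ∧
    (∀ x, ∃ c : K, ev G (ev F x) = c • x) ∧ (∃ x, ev G (ev F x) ≠ 0) ∧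
    IsPlaneCurve E₀ ∧ (∃ L, ParamBy E₀ 1 L) ∧
    (eval ![0, 0, 1] E₀ = 0 ∧ ∀ i, eval ![0, 0, 1] (pderiv i E₀) = 0) ∧
    IsClosureOfImage E E₀ G

section Lemmas

variable {K : Type*} [Field K]

theorem eval_aeval' {ι σ : Type*} (G : ι → MvPolynomial σ K) (x : σ → K)
    (p : MvPolynomial ι K) : eval x (aeval G p) = eval (ev G x) p := by
  induction p using MvPolynomial.induction_on with
  | C a => simp
  | add p q hp hq => simp only [map_add, hp, hq]
  | mul_X p i hp => simp only [map_mul, hp, aeval_X, eval_X]; rfl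

theorem eval_eq_aeval {σ : Type*} (x : σ → K) (p : MvPolynomial σ K) :
    eval x p = aeval x p := by
  rw [aeval_eq_eval]

/-- Scaling for forms, in any commutative algebra. -/
theorem aeval_smul {σ A : Type*} [CommRing A] [Algebra K A] {p : MvPolynomial σ K} {n : ℕ}
    (hp : p.IsHomogeneous n) (c : A) (x : σ → A) :
    aeval (fun i => c * x i) p = c ^ n * aeval x p := by
  rw [aeval_def, aeval_def, eval₂_eq, eval₂_eq, Finset.mul_sum]
  apply Finset.sum_congr rfl
  intro d hd
  have hdeg : ∑ i ∈ d.support, d i = n := by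
    have h1 := hp (mem_support_iff.1 hd)
    rw [Finsupp.weight_apply] at h1
    simpa [Finsupp.sum] using h1
  rw [show ∏ i ∈ d.support, (c * x i) ^ d i = c ^ n * ∏ i ∈ d.support, x i ^ d i by
    rw [← hdeg, ← Finset.prod_pow_eq_pow_sum, ← Finset.prod_mul_distrib]
    exact Finset.prod_congr rfl fun i _ => mul_pow _ _ _]
  ring

theorem eval_smul {σ : Type*} {p : MvPolynomial σ K} {n : ℕ}
    (hp : p.IsHomogeneous n) (c : K) (x : σ → K) :
    eval (c • x) p = c ^ n * eval x p := by
  rw [eval_eq_aeval, eval_eq_aeval]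
  exact aeval_smul hp c x

theorem ev_smul {ι σ : Type*} {P : ι → MvPolynomial σ K} {n : ℕ}
    (hP : ∀ i, (P i).IsHomogeneous n) (c : K) (x : σ → K) :
    ev P (c • x) = c ^ n • ev P x := by
  funext i
  exact eval_smul (hP i) c x

theorem eval_zero' {σ : Type*} {p : MvPolynomial σ K} {n : ℕ}
    (hp : p.IsHomogeneous n) (hn : n ≠ 0) : eval (0 : σ → K) p = 0 := by
  have := eval_smul hp 0 0
  rwa [zero_pow hn, zero_mul, smul_zero] at this

/-- Nullstellensatz for a hypersurface. -/
theorem dvd_pow_of_vanish [IsAlgClosed K] {σ : Type*} [Finite σ] {E P : MvPolynomial σ K}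
    (h : ∀ x, eval x E = 0 → eval x P = 0) : ∃ n, E ∣ P ^ n := by
  have h1 : P ∈ vanishingIdeal K (zeroLocus K (Ideal.span {E})) := by
    rw [mem_vanishingIdeal_iff]
    intro x hx
    rw [← eval_eq_aeval]
    apply h
    rw [eval_eq_aeval]
    exact hx E (Ideal.subset_span rfl)
  rw [vanishingIdeal_zeroLocus_eq_radical] at h1
  obtain ⟨n, hn⟩ := h1
  exact ⟨n, Ideal.mem_span_singleton.1 hn⟩

theorem dvd_of_vanish [IsAlgClosed K] {σ : Type*} [Finite σ] {E P : MvPolynomial σ K}
    (hE : Irreducible E) (h : ∀ x, eval x E = 0 → eval x P = 0) : E ∣ P := by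
  obtain ⟨n, hn⟩ := dvd_pow_of_vanish h
  exact hE.prime.dvd_of_dvd_pow hn

/-- A form of degree one is linear. -/
theorem exists_linear {n : ℕ} {p : MvPolynomial (Fin n) K} (hp : p.IsHomogeneous 1) :
    ∃ a : Fin n → K, ∀ x, eval x p = ∑ i, a i * x i := by
  have h1 : p ∈ homogeneousSubmodule (Fin n) K 1 := hp
  rw [homogeneousSubmodule_one_eq_span_X] at h1
  clear hp
  induction h1 using Submodule.span_induction with
  | mem x hx =>
    obtain ⟨i, rfl⟩ := hx
    refine ⟨Pi.single i 1, fun x => ?_⟩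
    rw [eval_X, Finset.sum_eq_single i]
    · simp
    · intro j _ hj
      simp [hj]
    · simp
  | zero => exact ⟨0, fun x => by simp⟩
  | add p q hp' hq' hp hq =>
    obtain ⟨a, ha⟩ := hp
    obtain ⟨b, hb⟩ := hq
    refine ⟨a + b, fun x => ?_⟩
    rw [map_add, ha, hb, ← Finset.sum_add_distrib]
    exact Finset.sum_congr rfl fun i _ => by rw [Pi.add_apply]; ring
  | smul c p hp' hp =>
    obtain ⟨a, ha⟩ := hp
    refine ⟨c • a, fun x => ?_⟩
    rw [smul_eval, ha, Finset.mul_sum]
    exact Finset.sum_congr rfl fun i _ => by rw [Pi.smul_apply, smul_eq_mul]; ring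

end Lemmas

end Q45.Forms
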