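import Mathlib

/-!
Elementary facts about idempotent and bipotent semirings, with the order `a ≤ b` meaning
`a + b = b`.
-/

namespace Q45.Idem

/-- The natural order of an idempotent semiring. -/
def Le {R : Type*} [Add R] (a b : R) : Prop := a + b = b

section Idem

variable {R : Type*} [CommSemiring R]

theorem le_refl (hR : ∀ x : R, x + x = x) (a : R) : Le a a := hR a

theorem le_trans {a b c : R} (h₁ : Le a b) (h₂ : Le b c) : Le a c := by
  unfold Le at *
  rw [← h₂, ← add_assoc, h₁]

theorem le_antisymm {a b : R} (h₁ : Le a b) (h₂ : Le b a) : a = b := by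
  unfold Le at *
  rw [← h₂, add_comm, h₁]

theorem zero_le (a : R) : Le 0 a := zero_add a

theorem eq_zero_of_le {a : R} (h : Le a 0) : a = 0 := by
  unfold Le at h
  rwa [add_zero] at h

theorem add_le {a b c : R} (h₁ : Le a c) (h₂ : Le b c) : Le (a + b) c := by
  unfold Le at *
  rw [add_assoc, h₂, h₁]

theorem le_add_left (hR : ∀ x : R, x + x = x) (a b : R) : Le a (a + b) := by
  unfold Le
  rw [← add_assoc, hR]

theorem le_add_right (hR : ∀ x : R, x + x = x) (a b : R) : Le b (a + b) := by
  rw [add_comm]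
  exact le_add_left hR b a

theorem add_le_add (hR : ∀ x : R, x + x = x) {a b c d : R} (h₁ : Le a c) (h₂ : Le b d) :
    Le (a + b) (c + d) :=
  add_le (le_trans h₁ (le_add_left hR c d)) (le_trans h₂ (le_add_right hR c d))

theorem mul_le_mul_left {a b : R} (c : R) (h : Le a b) : Le (c * a) (c * b) := by
  unfold Le at *
  rw [← mul_add, h]

theorem mul_le_mul_right {a b : R} (c : R) (h : Le a b) : Le (a * c) (b * c) := by
  unfold Le at *
  rw [← add_mul, h]

theorem mul_le_mul {a b c d : R} (h₁ : Le a b) (h₂ : Le c d) : Le (a * c) (b * d) :=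
  le_trans (mul_le_mul_right c h₁) (mul_le_mul_left b h₂)

theorem pow_le_pow (hR : ∀ x : R, x + x = x) {a b : R} (h : Le a b) (n : ℕ) :
    Le (a ^ n) (b ^ n) := by
  induction n with
  | zero => simp only [pow_zero]; exact le_refl hR 1
  | succ n ih => rw [pow_succ, pow_succ]; exact mul_le_mul ih h

theorem sum_le {ι : Type*} {s : Finset ι} {f : ι → R} {c : R} (h : ∀ i ∈ s, Le (f i) c) :
    Le (∑ i ∈ s, f i) c := by
  classical
  induction s using Finset.induction_on with
  | empty => simp only [Finset.sum_empty]; exact zero_le c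
  | insert a s ha ih =>
    rw [Finset.sum_insert ha]
    exact add_le (h a (Finset.mem_insert_self a s))
      (ih fun i hi => h i (Finset.mem_insert_of_mem hi))

theorem le_sum (hR : ∀ x : R, x + x = x) {ι : Type*} {s : Finset ι} (f : ι → R) {i : ι}
    (hi : i ∈ s) : Le (f i) (∑ j ∈ s, f j) := by
  classical
  rw [← Finset.add_sum_erase s f hi]
  exact le_add_left hR _ _

theorem prod_le_prod (hR : ∀ x : R, x + x = x) {ι : Type*} {s : Finset ι} {f g : ι → R}
    (h : ∀ i ∈ s, Le (f i) (g i)) : Le (∏ i ∈ s, f i) (∏ i ∈ s, g i) := by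
  classical
  induction s using Finset.induction_on with
  | empty => simp only [Finset.prod_empty]; exact le_refl hR 1
  | insert a s ha ih =>
    rw [Finset.prod_insert ha, Finset.prod_insert ha]
    exact mul_le_mul (h a (Finset.mem_insert_self a s))
      (ih fun i hi => h i (Finset.mem_insert_of_mem hi))

theorem natCast_mul_le {x c : R} (h : Le x c) (n : ℕ) : Le ((n : R) * x) c := by
  induction n with
  | zero => simp only [Nat.cast_zero, zero_mul]; exact zero_le c
  | succ n ih =>
    rw [Nat.cast_succ, add_mul, one_mul]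
    exact add_le ih h

/-- In an idempotent semiring, `F ^ N * ∑ tᵢ ^ n = F ^ (N + n)` for `F = ∑ tᵢ` and `N` large. -/
theorem pow_mul_sum_pow (hR : ∀ x : R, x + x = x) {ι : Type*} (s : Finset ι)
    (hs : s.Nonempty) (t : ι → R) (n N : ℕ) (hN : s.card * n ≤ N) :
    (∑ i ∈ s, t i) ^ N * ∑ i ∈ s, t i ^ n = (∑ i ∈ s, t i) ^ (N + n) := by
  classical
  apply le_antisymm
  · rw [pow_add]
    apply mul_le_mul_left
    apply sum_le
    intro i hi
    exact pow_le_pow hR (le_sum hR t hi) n
  · conv in (∑ i ∈ s, t i) ^ (N + n) => rw [Finset.sum_pow_eq_sum_piAntidiag]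
    apply sum_le
    intro k hk
    apply natCast_mul_le
    rw [Finset.mem_piAntidiag] at hk
    have hk : ∑ x ∈ s, k x = N + n := hk.1
    have hex : ∃ i ∈ s, n ≤ k i := by
      by_contra hcon
      push Not at hcon
      have h1 : ∑ i ∈ s, (k i + 1) ≤ ∑ i ∈ s, n := Finset.sum_le_sum fun i hi => hcon i hi
      rw [Finset.sum_add_distrib, Finset.sum_const, Finset.sum_const, smul_eq_mul, smul_eq_mul,
        mul_one] at h1
      have h2 := Finset.card_pos.2 hs
      omega
    obtain ⟨i, hi, hki⟩ := hex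
    rw [← Finset.mul_prod_erase s _ hi]
    have hsum : (k i - n) + ∑ j ∈ s.erase i, k j = N := by
      have := Finset.add_sum_erase s k hi
      omega
    have e1 : t i ^ k i = t i ^ (k i - n) * t i ^ n := by
      rw [← pow_add, Nat.sub_add_cancel hki]
    have e2 : (∑ i ∈ s, t i) ^ N =
        (∑ i ∈ s, t i) ^ (k i - n) * ∏ j ∈ s.erase i, (∑ i ∈ s, t i) ^ k j := by
      rw [Finset.prod_pow_eq_pow_sum, ← pow_add, hsum]
    rw [e1, e2]
    have e3 : t i ^ (k i - n) * t i ^ n * ∏ j ∈ s.erase i, t j ^ k j =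
        (t i ^ (k i - n) * ∏ j ∈ s.erase i, t j ^ k j) * t i ^ n := by ring
    rw [e3]
    apply mul_le_mul
    · apply mul_le_mul
      · exact pow_le_pow hR (le_sum hR t hi) _
      · apply prod_le_prod hR
        intro j hj
        exact pow_le_pow hR (le_sum hR t (Finset.mem_of_mem_erase hj)) _
    · exact le_sum hR (fun j => t j ^ n) hi

end Idem

section Bip

variable {S : Type*} [Semifield S]

theorem idem_of_bip (hS : ∀ a b : S, a + b = a ∨ a + b = b) (a : S) : a + a = a := by
  rcases hS a a with h | h <;> exact h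

theorem le_total (hS : ∀ a b : S, a + b = a ∨ a + b = b) (a b : S) : Le a b ∨ Le b a := by
  unfold Le
  rcases hS a b with h | h
  · right; rw [add_comm]; exact h
  · left; exact h

theorem not_le_zero_of_one_le {a : S} (h : Le 1 a) : a ≠ 0 := by
  rintro rfl
  unfold Le at h
  rw [add_zero] at h
  exact one_ne_zero h

theorem eq_one_of_sq (hS : ∀ a b : S, a + b = a ∨ a + b = b) {a : S} (h : a * a = 1) : a = 1 := by
  rcases le_total hS a 1 with h1 | h1
  · apply le_antisymm h1
    have := mul_le_mul_left a h1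
    rwa [h, mul_one] at this
  · apply le_antisymm _ h1
    have := mul_le_mul_left a h1
    rwa [h, mul_one] at this

theorem le_of_mul_le_mul_left {a b c : S} (hc : c ≠ 0) (h : Le (c * a) (c * b)) : Le a b := by
  have := mul_le_mul_left c⁻¹ h
  rwa [inv_mul_cancel_left₀ hc, inv_mul_cancel_left₀ hc] at this

/-- Finitely many nonzero upper bounds can be met simultaneously by a nonzero element. -/
theorem exists_common (hS : ∀ a b : S, a + b = a ∨ a + b = b) {ι : Type*} (s : Finset ι)
    (Q : ι → S → Prop) (hdown : ∀ i ∈ s, ∀ a b : S, Le a b → Q i b → Q i a)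
    (hex : ∀ i ∈ s, ∃ a : S, a ≠ 0 ∧ Q i a) : ∃ a : S, a ≠ 0 ∧ ∀ i ∈ s, Q i a := by
  classical
  induction s using Finset.induction_on with
  | empty => exact ⟨1, one_ne_zero, by simp⟩
  | insert j s hj ih =>
    obtain ⟨a, ha, hQa⟩ := ih (fun i hi => hdown i (Finset.mem_insert_of_mem hi))
      (fun i hi => hex i (Finset.mem_insert_of_mem hi))
    obtain ⟨b, hb, hQb⟩ := hex j (Finset.mem_insert_self j s)
    rcases le_total hS a b with h | h
    · refine ⟨a, ha, fun i hi => ?_⟩
      rcases Finset.mem_insert.1 hi with rfl | hi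
      · exact hdown _ (Finset.mem_insert_self _ s) a b h hQb
      · exact hQa i hi
    · refine ⟨b, hb, fun i hi => ?_⟩
      rcases Finset.mem_insert.1 hi with rfl | hi
      · exact hQb
      · exact hdown i (Finset.mem_insert_of_mem hi) b a h (hQa i hi)

theorem exists_mul_le (a b : S) (hb : b ≠ 0) : ∃ c : S, c ≠ 0 ∧ (a = 0 ∨ c * a = b) := by
  by_cases ha : a = 0
  · exact ⟨1, one_ne_zero, Or.inl ha⟩
  · exact ⟨b * a⁻¹, mul_ne_zero hb (inv_ne_zero ha), Or.inr (inv_mul_cancel_right₀ ha b)⟩

end Bip

end Q45.Idem
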