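import Mathlib
import Pool.Agent.Q45.Forms

/-!
Plane curves parameterizable by lines and singular at `(0:0:1)`.
-/

namespace Q45.LineParam

open MvPolynomial Q45.Forms

variable {K : Type*} [Field K]

/-- The restriction of a polynomial to the line `Q + zP`. -/
noncomputable def restr (Q P : Fin 3 → K) : MvPolynomial (Fin 3) K →ₐ[K] Polynomial K :=
  aeval (fun i => Polynomial.C (Q i) + Polynomial.X * Polynomial.C (P i))

theorem eval_restr (Q P : Fin 3 → K) (z : K) (p : MvPolynomial (Fin 3) K) :
    (restr Q P p).eval z = eval (Q + z • P) p := by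
  induction p using MvPolynomial.induction_on with
  | C a => simp [restr]
  | add p q hp hq => simp only [map_add, Polynomial.eval_add, hp, hq]
  | mul_X p i hp =>
    simp only [map_mul, Polynomial.eval_mul, hp, eval_X]
    congr 1
    simp [restr]
    ring

theorem coeff_zero_restr (Q P : Fin 3 → K) (p : MvPolynomial (Fin 3) K) :
    (restr Q P p).coeff 0 = eval Q p := by
  rw [Polynomial.coeff_zero_eq_eval_zero, eval_restr, zero_smul, add_zero]

theorem coeff_one_restr (Q P : Fin 3 → K) (p : MvPolynomial (Fin 3) K) :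
    (restr Q P p).coeff 1 = ∑ k, P k * eval Q (pderiv k p) := by
  induction p using MvPolynomial.induction_on with
  | C a =>
    have : restr Q P (C a) = Polynomial.C a := by simp [restr]
    rw [this, Polynomial.coeff_C, if_neg one_ne_zero]
    symm
    apply Finset.sum_eq_zero
    intro k _
    rw [pderiv_C, map_zero, mul_zero]
  | add p q hp hq =>
    simp only [map_add, Polynomial.coeff_add, hp, hq]
    rw [← Finset.sum_add_distrib]
    exact Finset.sum_congr rfl fun k _ => by ring
  | mul_X p i hp =>
    have e : restr Q P (X i) = Polynomial.C (Q i) + Polynomial.X * Polynomial.C (P i) := by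
      simp [restr]
    have e1 : (restr Q P (p * X i)).coeff 1 =
        (restr Q P p).coeff 1 * Q i + (restr Q P p).coeff 0 * P i := by
      rw [map_mul, e, mul_add, Polynomial.coeff_add, Polynomial.coeff_mul_C,
        ← mul_assoc, Polynomial.coeff_mul_C, Polynomial.coeff_mul_X]
    rw [e1, hp, coeff_zero_restr]
    have e2 : ∀ k, P k * eval Q (pderiv k (p * X i)) =
        P k * eval Q (pderiv k p) * Q i + P k * (eval Q p * (if k = i then 1 else 0)) := by
      intro k
      rw [pderiv_mul, map_add, map_mul, map_mul, eval_X]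
      by_cases hk : k = i
      · subst hk
        rw [pderiv_X_self, map_one, if_pos rfl]
        ring
      · rw [pderiv_X_of_ne (Ne.symm hk), map_zero, if_neg hk]
        ring
    rw [Finset.sum_congr rfl fun k _ => e2 k, Finset.sum_add_distrib, ← Finset.sum_mul]
    congr 1
    rw [Finset.sum_eq_single i]
    · rw [if_pos rfl]; ring
    · intro k _ hk
      rw [if_neg hk]; ring
    · simp

/-- A multiple of an equation singular at `Q` vanishes to order two along lines through `Q`. -/
theorem coeff_of_sing {E R : MvPolynomial (Fin 3) K} {Q : Fin 3 → K} (hE : eval Q E = 0)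
    (hs : ∀ i, eval Q (pderiv i E) = 0) (h : E ∣ R) (P : Fin 3 → K) :
    (restr Q P R).coeff 0 = 0 ∧ (restr Q P R).coeff 1 = 0 := by
  obtain ⟨S, rfl⟩ := h
  have h0 : (restr Q P E).coeff 0 = 0 := by rw [coeff_zero_restr, hE]
  have h1 : (restr Q P E).coeff 1 = 0 := by
    rw [coeff_one_restr]
    apply Finset.sum_eq_zero
    intro k _
    rw [hs k, mul_zero]
  obtain ⟨f, hf⟩ := Polynomial.X_pow_dvd_iff (n := 2).2 (show ∀ d < 2, (restr Q P E).coeff d = 0 by
    intro d hd
    interval_cases d
    · exact h0
    · exact h1)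
  have h2 : (Polynomial.X ^ 2 : Polynomial K) ∣ restr Q P (E * S) := by
    rw [map_mul, hf, mul_assoc]
    exact dvd_mul_right _ _
  have h3 := Polynomial.X_pow_dvd_iff.1 h2
  exact ⟨h3 0 (by norm_num), h3 1 (by norm_num)⟩

/-- A homogeneous linear system with two equations in three unknowns has a nonzero solution. -/
theorem exists_kernel (a : Fin 2 → Fin 3 → K) :
    ∃ P : Fin 3 → K, P ≠ 0 ∧ ∀ k, ∑ i, a k i * P i = 0 := by
  let f : (Fin 3 → K) →ₗ[K] (Fin 2 → K) := Matrix.toLin' (Matrix.of a)
  have h : LinearMap.ker f ≠ ⊥ := LinearMap.ker_ne_bot_of_finrank_lt (by simp)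
  obtain ⟨P, hP, hP0⟩ := Submodule.exists_mem_ne_zero_of_ne_bot h
  refine ⟨P, hP0, fun k => ?_⟩
  have h1 := congrFun (LinearMap.mem_ker.1 hP) k
  simpa [f, Matrix.toLin'_apply, Matrix.mulVec, dotProduct] using h1

theorem main [IsAlgClosed K] {E₀ : MvPolynomial (Fin 3) K} (hE₀ : Irreducible E₀)
    {L : Fin 2 → MvPolynomial (Fin 3) K} (hL : ParamBy E₀ 1 L)
    (hQ : eval ![0, 0, 1] E₀ = 0) (hs : ∀ i, eval ![0, 0, 1] (pderiv i E₀) = 0) :
    ¬ E₀ ∣ X 1 ∧ ∃ w : Fin 3 → Polynomial K,
      (∀ z, eval (fun i => (w i).eval z) E₀ = 0) ∧ w 0 = Polynomial.X * w 1 ∧ w 1 ≠ 0 ∧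
      (∀ x, eval x E₀ = 0 → x 1 ≠ 0 → ∃ c : K, c ≠ 0 ∧
        (fun i => (w i).eval (x 0 / x 1)) = c • x) := by
  obtain ⟨hL1, hLc, m, u, hu, -, hEu, hLu, huL, x₁, hx₁, hLx₁⟩ := hL
  set Q : Fin 3 → K := ![0, 0, 1] with hQdef
  choose a ha using fun k => exists_linear (hL1 k)
  have hLev : ∀ x k, ev L x k = a k 0 * x 0 + a k 1 * x 1 + a k 2 * x 2 := by
    intro x k
    show eval x (L k) = _
    rw [ha k x, Fin.sum_univ_three]
  -- `m ≠ 0`
  have hm : m ≠ 0 := by
    rintro rfl
    have hconst : ∀ t, ev u t = ev u 0 := by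
      intro t
      have h1 := ev_smul hu (0 : K) t
      rw [pow_zero, one_smul, zero_smul] at h1
      exact h1.symm
    have hL0 : ev L (ev u 0) = 0 := by
      obtain ⟨c, hc⟩ := hLu ![1, 0]
      obtain ⟨d, hd⟩ := hLu ![0, 1]
      rw [hconst] at hc hd
      funext k
      fin_cases k
      · have := congrFun hd 0
        simpa using this
      · have := congrFun hc 1
        simpa using this
    obtain ⟨c, hc, hcx⟩ := huL x₁ hx₁ hLx₁
    rw [hconst] at hcx
    rw [hcx, ev_smul hL1, pow_one] at hL0
    exact hLx₁ ((smul_eq_zero.1 hL0).resolve_left hc)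
  -- the relations on the curve
  have hR : ∀ i j, E₀ ∣ X i * aeval L (u j) - X j * aeval L (u i) := by
    intro i j
    apply dvd_of_vanish hE₀
    intro x hx
    rw [map_sub, map_mul, map_mul, eval_X, eval_X, eval_aeval', eval_aeval']
    by_cases h : ev L x = 0
    · rw [h, eval_zero' (hu j) hm, eval_zero' (hu i) hm]
      ring
    · obtain ⟨c, -, hc⟩ := huL x hx h
      have h1 : eval (ev L x) (u j) = c * x j := congrFun hc j
      have h2 : eval (ev L x) (u i) = c * x i := congrFun hc i
      rw [h1, h2]
      ring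
  -- `L(Q) = 0`
  have hLQ : ev L Q = 0 := by
    by_contra hne
    obtain ⟨P, hP0, hP⟩ := exists_kernel a
    obtain ⟨c, hc, hcQ⟩ := huL Q hQ hne
    have hLP : ∀ z : K, ev L (Q + z • P) = ev L Q := by
      intro z
      funext k
      have h1 := hP k
      rw [Fin.sum_univ_three] at h1
      rw [hLev, hLev]
      simp only [Pi.add_apply, Pi.smul_apply, smul_eq_mul]
      linear_combination z * h1
    have hrel : ∀ i j, P i * (c * Q j) - P j * (c * Q i) = 0 := by
      intro i j
      have h1 := (coeff_of_sing hQ hs (hR i j) P).2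
      have h2 : restr Q P (X i * aeval L (u j) - X j * aeval L (u i)) =
          Polynomial.C (Q i * (c * Q j) - Q j * (c * Q i)) +
            Polynomial.X * Polynomial.C (P i * (c * Q j) - P j * (c * Q i)) := by
        apply Polynomial.funext
        intro z
        rw [eval_restr, map_sub, map_mul, map_mul, eval_X, eval_X, eval_aeval', eval_aeval', hLP]
        have h3 : eval (ev L Q) (u j) = c * Q j := congrFun hcQ j
        have h4 : eval (ev L Q) (u i) = c * Q i := congrFun hcQ i
        rw [h3, h4]
        simp only [Pi.add_apply, Pi.smul_apply, smul_eq_mul, Polynomial.eval_add,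
          Polynomial.eval_mul, Polynomial.eval_C, Polynomial.eval_X]
        ring
      rw [h2] at h1
      simpa using h1
    have hP0' : P 0 = 0 := by
      have h1 := hrel 0 2
      simp only [hQdef, Matrix.cons_val_zero, Matrix.cons_val] at h1
      have : c * P 0 = 0 := by linear_combination h1
      exact (mul_eq_zero.1 this).resolve_left hc
    have hP1' : P 1 = 0 := by
      have h1 := hrel 1 2
      simp only [hQdef, Matrix.cons_val_one, Matrix.cons_val] at h1
      have : c * P 1 = 0 := by linear_combination h1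
      exact (mul_eq_zero.1 this).resolve_left hc
    have hP2' : P 2 ≠ 0 := by
      intro h
      apply hP0
      funext i
      fin_cases i
      · exact hP0'
      · exact hP1'
      · exact h
    apply hne
    funext k
    have h1 := hP k
    rw [Fin.sum_univ_three, hP0', hP1', mul_zero, mul_zero, zero_add, zero_add] at h1
    rw [hLev]
    have h2 := (mul_eq_zero.1 h1).resolve_right hP2'
    simp [hQdef, h2]
  have ha2 : ∀ k, a k 2 = 0 := by
    intro k
    have h1 := congrFun hLQ k
    rw [hLev] at h1
    simpa [hQdef] using h1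
  have hLev' : ∀ x k, ev L x k = a k 0 * x 0 + a k 1 * x 1 := by
    intro x k
    rw [hLev, ha2, zero_mul, add_zero]
  -- the determinant
  have hdet : a 0 0 * a 1 1 - a 0 1 * a 1 0 ≠ 0 := by
    intro h0
    have hLp : ∀ k, L k = C (a k 0) * X 0 + C (a k 1) * X 1 := by
      intro k
      apply MvPolynomial.funext
      intro x
      have := hLev' x k
      show ev L x k = _
      rw [this]
      simp
    -- a common linear factor
    have hcommon : ∀ p q : K, (p ≠ 0 ∨ q ≠ 0) → (∀ k, a k 0 * p + a k 1 * q = 0) → False := by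
      intro p q hpq hk
      have hunit : IsUnit (C q * X 0 - C p * X 1 : MvPolynomial (Fin 3) K) := by
        apply hLc
        intro k
        rcases hpq with hp | hq
        · refine ⟨C (-(a k 1) / p), ?_⟩
          apply MvPolynomial.funext
          intro x
          rw [hLp k]
          simp only [map_add, map_mul, map_sub, eval_C, eval_X]
          field_simp
          linear_combination x 0 * hk k
        · refine ⟨C (a k 0 / q), ?_⟩
          apply MvPolynomial.funext
          intro x
          rw [hLp k]
          simp only [map_add, map_mul, map_sub, eval_C, eval_X]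
          field_simp
          linear_combination x 1 * hk k
      have h1 := hunit.map (eval (0 : Fin 3 → K))
      simp at h1
    by_cases h1 : a 0 0 = 0 ∧ a 0 1 = 0
    · by_cases h2 : a 1 0 = 0 ∧ a 1 1 = 0
      · refine hcommon 1 0 (Or.inl one_ne_zero) ?_
        intro k
        fin_cases k
        · simp [h1.1]
        · simp [h2.1]
      · refine hcommon (a 1 1) (-(a 1 0)) ?_ ?_
        · by_contra hcon
          push Not at hcon
          exact h2 ⟨neg_eq_zero.1 hcon.2, hcon.1⟩
        · intro k
          fin_cases k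
          · simp [h1.1, h1.2]
          · simp only [Fin.mk_one]
            ring
    · refine hcommon (a 0 1) (-(a 0 0)) ?_ ?_
      · by_contra hcon
        push Not at hcon
        exact h1 ⟨neg_eq_zero.1 hcon.2, hcon.1⟩
      · intro k
        fin_cases k
        · simp only [Fin.zero_eta]
          ring
        · simp only [Fin.mk_one]
          linear_combination -h0
  have hinj : ∀ p q : K, (∀ k, a k 0 * p + a k 1 * q = 0) → p = 0 ∧ q = 0 := by
    intro p q hk
    have h0 := hk 0
    have h1 := hk 1
    constructor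
    · have : (a 0 0 * a 1 1 - a 0 1 * a 1 0) * p = 0 := by
        linear_combination a 1 1 * h0 - a 0 1 * h1
      exact (mul_eq_zero.1 this).resolve_left hdet
    · have : (a 0 0 * a 1 1 - a 0 1 * a 1 0) * q = 0 := by
        linear_combination a 0 0 * h1 - a 1 0 * h0
      exact (mul_eq_zero.1 this).resolve_left hdet
  -- `E₀` does not divide `X 1`
  have hX1 : ¬ E₀ ∣ X 1 := by
    rintro ⟨S, hS⟩
    have h1 : eval Q (pderiv 1 (X 1 : MvPolynomial (Fin 3) K)) = 1 := by
      rw [pderiv_X_self, map_one]
    rw [hS, pderiv_mul, map_add, map_mul, map_mul, hs 1, hQ, zero_mul, zero_mul, add_zero] at h1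
    exact zero_ne_one h1
  refine ⟨hX1, ?_⟩
  -- the parametrization
  let w : Fin 3 → Polynomial K := fun i =>
    aeval (fun k => Polynomial.C (a k 0) * Polynomial.X + Polynomial.C (a k 1)) (u i)
  have hw : ∀ z i, (w i).eval z = eval (fun k => a k 0 * z + a k 1) (u i) := by
    intro z i
    show (aeval (fun k => Polynomial.C (a k 0) * Polynomial.X + Polynomial.C (a k 1))
      (u i)).eval z = _
    induction u i using MvPolynomial.induction_on with
    | C b => simp
    | add p q hp hq => simp only [map_add, Polynomial.eval_add, hp, hq]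
    | mul_X p j hp =>
      simp only [map_mul, Polynomial.eval_mul, hp, eval_X]
      congr 1
      simp
  have hw' : ∀ z, (fun i => (w i).eval z) = ev u (fun k => a k 0 * z + a k 1) := by
    intro z
    funext i
    exact hw z i
  have hparam : ∀ x, eval x E₀ = 0 → x 1 ≠ 0 → ∃ c : K, c ≠ 0 ∧
      (fun i => (w i).eval (x 0 / x 1)) = c • x := by
    intro x hx hx1
    have hne : ev L x ≠ 0 := by
      intro h
      apply hx1
      refine (hinj (x 0) (x 1) fun k => ?_).2
      rw [← hLev' x k, h]
      rfl
    obtain ⟨c, hc, hcx⟩ := huL x hx hne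
    have h1 : ev L x = x 1 • (fun k => a k 0 * (x 0 / x 1) + a k 1) := by
      funext k
      rw [hLev', Pi.smul_apply, smul_eq_mul]
      field_simp
    rw [h1, ev_smul hu] at hcx
    refine ⟨(x 1 ^ m)⁻¹ * c, mul_ne_zero (inv_ne_zero (pow_ne_zero _ hx1)) hc, ?_⟩
    rw [hw', mul_smul, ← hcx, smul_smul, inv_mul_cancel₀ (pow_ne_zero _ hx1), one_smul]
  refine ⟨w, ?_, ?_, ?_, hparam⟩
  · intro z
    rw [hw']
    exact hEu _
  · apply Polynomial.funext
    intro z
    obtain ⟨c, hc⟩ := hLu (fun k => a k 0 * z + a k 1)
    rw [← hw'] at hc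
    have h1 : ∀ k, a k 0 * ((w 0).eval z - c * z) + a k 1 * ((w 1).eval z - c) = 0 := by
      intro k
      have h2 := congrFun hc k
      rw [hLev'] at h2
      simp only [Pi.smul_apply, smul_eq_mul] at h2
      linear_combination h2
    obtain ⟨h3, h4⟩ := hinj _ _ h1
    rw [Polynomial.eval_mul, Polynomial.eval_X]
    linear_combination h3 - z * h4
  · intro h0
    apply hX1
    apply dvd_of_vanish hE₀
    intro x hx
    rw [eval_X]
    by_contra hx1
    obtain ⟨c, hc, hcx⟩ := hparam x hx hx1
    have h1 := congrFun hcx 1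
    simp only [h0, Polynomial.eval_zero, Pi.smul_apply, smul_eq_mul] at h1
    exact mul_ne_zero hc hx1 h1.symm

end Q45.LineParam
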