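import Mathlib

/-!
If a rational function `ρ` satisfies `p₀(ρ) = X p₁(ρ)` then `p₀ / p₁` is a Möbius transformation.
-/

namespace Q45.MobiusLemma

open Polynomial

variable {K : Type*} [Field K]

theorem mobius (ρ : RatFunc K) (p₀ p₁ : K[X]) (h : aeval ρ p₀ = RatFunc.X * aeval ρ p₁)
    (h₁ : aeval ρ p₁ ≠ 0) : ∃ α β γ δ : K, α * δ - β * γ ≠ 0 ∧
      C α * p₀ + C β * p₁ = X * (C γ * p₀ + C δ * p₁) := by
  have htop : IntermediateField.adjoin K {ρ} = ⊤ := by
    rw [eq_top_iff, ← RatFunc.adjoin_X, IntermediateField.adjoin_simple_le_iff]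
    have e : (RatFunc.X : RatFunc K) = aeval ρ p₀ / aeval ρ p₁ := by
      rw [h, mul_div_cancel_right₀ _ h₁]
    rw [e]
    exact (IntermediateField.mem_adjoin_simple_iff K _).2 ⟨p₀, p₁, rfl⟩
  have hdeg : max ρ.num.natDegree ρ.denom.natDegree = 1 := by
    rw [← RatFunc.finrank_eq_max_natDegree, htop]
    exact IntermediateField.finrank_top
  have hn : ρ.num.natDegree ≤ 1 := hdeg ▸ le_max_left _ _
  have hd : ρ.denom.natDegree ≤ 1 := hdeg ▸ le_max_right _ _
  have hnot : ¬ ∃ c, ρ = RatFunc.C c := by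
    rintro ⟨c, rfl⟩
    rw [RatFunc.num_C, RatFunc.denom_C, natDegree_C, natDegree_one] at hdeg
    simp at hdeg
  have htr := RatFunc.transcendental_of_ne_C ρ hnot
  set α := ρ.num.coeff 1 with hα
  set β := ρ.num.coeff 0 with hβ
  set γ := ρ.denom.coeff 1 with hγ
  set δ := ρ.denom.coeff 0 with hδ
  have en : ρ.num = C α * X + C β := eq_X_add_C_of_natDegree_le_one hn
  have ed : ρ.denom = C γ * X + C δ := eq_X_add_C_of_natDegree_le_one hd
  have hden : ρ.denom ≠ 0 := RatFunc.denom_ne_zero ρ
  have hdet : α * δ - β * γ ≠ 0 := by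
    intro h0
    have hc := RatFunc.isCoprime_num_denom ρ
    by_cases hg : γ = 0
    · have ha : α ≠ 0 := by
        intro ha
        rw [en, ed, ha, hg] at hdeg
        simp at hdeg
      rw [hg, mul_zero, sub_zero] at h0
      rcases mul_eq_zero.1 h0 with h1 | h1
      · exact ha h1
      · rw [hg, h1] at ed
        simp at ed
        exact hden ed
    · have h1 : ρ.denom ∣ ρ.num := by
        refine ⟨C (α / γ), ?_⟩
        rw [en, ed]
        have e1 : C γ * C (α / γ) = C α := by
          rw [← C_mul, mul_div_cancel₀ _ hg]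
        have e2 : C δ * C (α / γ) = C β := by
          rw [← C_mul]
          congr 1
          field_simp
          linear_combination h0
        linear_combination (-X) * e1 - e2
      have h2 : IsUnit ρ.denom := hc.isUnit_of_dvd' h1 dvd_rfl
      have h3 := natDegree_eq_zero_of_isUnit h2
      rw [ed] at h3
      have h4 := natDegree_linear (b := δ) hg
      omega
  refine ⟨α, β, γ, δ, hdet, ?_⟩
  have e1 : ρ * (algebraMap K[X] (RatFunc K) ρ.denom) = algebraMap K[X] (RatFunc K) ρ.num := by
    have h2 : algebraMap K[X] (RatFunc K) ρ.denom ≠ 0 :=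
      RatFunc.algebraMap_ne_zero hden
    have h3 := RatFunc.num_div_denom ρ
    rw [div_eq_iff h2] at h3
    exact h3.symm
  rw [en, ed] at e1
  simp only [map_add, map_mul, RatFunc.algebraMap_C, RatFunc.algebraMap_X] at e1
  have key : aeval ρ (C α * p₀ + C β * p₁ - X * (C γ * p₀ + C δ * p₁)) = 0 := by
    simp only [map_add, map_sub, map_mul, aeval_C, aeval_X, RatFunc.algebraMap_eq_C]
    linear_combination (RatFunc.C α - ρ * RatFunc.C γ) * h + (- aeval ρ p₁) * e1
  have h5 := (transcendental_iff.1 htr) _ key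
  linear_combination h5

end Q45.MobiusLemma
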