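import Mathlib
import Pool.Agent.Q45.Forms

/-!
A rational plane octic parameterizable by cubics.
-/

namespace Q45.Octic

open MvPolynomial Q45.Forms

/-- The value of the cubic `A`. -/
def Af {R : Type*} [CommRing R] (a b c : R) : R := a ^ 3 + 3 * a * b ^ 2 + 12 * b * c ^ 2

/-- The value of the octic `E`. -/
def Ef {R : Type*} [CommRing R] (a b c : R) : R :=
  a ^ 8 + 6 * a ^ 6 * b ^ 2 + 24 * a ^ 5 * b * c ^ 2 + 9 * a ^ 4 * b ^ 4 - 48 * a ^ 4 * c ^ 4 +
    72 * a ^ 3 * b ^ 3 * c ^ 2 - 1152 * a * b * c ^ 6 - 2304 * c ^ 8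

/-- The parametrization. -/
def u0 {R : Type*} [CommRing R] (s r : R) : R := 36 * s ^ 6 * r ^ 2

/-- The parametrization. -/
def u1 {R : Type*} [CommRing R] (s r : R) : R := 9 * s ^ 8 - 12 * s ^ 4 * r ^ 4 - r ^ 8

/-- The parametrization. -/
def u2 {R : Type*} [CommRing R] (s r : R) : R := 9 * s ^ 7 * r + 3 * s ^ 3 * r ^ 5

section Ring

variable {R : Type*} [CommRing R]

theorem Ef_u (s r : R) : Ef (u0 s r) (u1 s r) (u2 s r) = 0 := by
  unfold Ef u0 u1 u2
  ring

theorem Af_u (s r : R) : Af (u0 s r) (u1 s r) (u2 s r) * r = 24 * u2 s r ^ 3 * s := by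
  unfold Af u0 u1 u2
  ring

theorem rel02 {a b c : R} (h : Ef a b c = 0) :
    a * u2 (Af a b c) (24 * c ^ 3) = c * u0 (Af a b c) (24 * c ^ 3) := by
  unfold Ef at h
  unfold u2 u0 Af
  linear_combination (216*a^14*c^3 + 3240*a^12*b^2*c^3 + 12960*a^11*b*c^5 + 19440*a^10*b^4*c^3 - 10368*a^10*c^7 + 155520*a^9*b^3*c^5 + 58320*a^8*b^6*c^3 + 186624*a^8*b^2*c^7 + 699840*a^7*b^5*c^5 - 373248*a^7*b*c^9 + 87480*a^6*b^8*c^3 + 2239488*a^6*b^4*c^7 + 1399680*a^5*b^7*c^5 + 373248*a^5*b^3*c^9 + 52488*a^4*b^10*c^3 + 7278336*a^4*b^6*c^7 - 4478976*a^4*b^2*c^11 + 1049760*a^3*b^9*c^5 + 12317184*a^3*b^5*c^9 + 7558272*a^2*b^8*c^7 - 4478976*a^2*b^4*c^11 + 23514624*a*b^7*c^9 - 17915904*a*b^3*c^13 + 26873856*b^6*c^11) * h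

theorem rel12 {a b c : R} (h : Ef a b c = 0) :
    b * u2 (Af a b c) (24 * c ^ 3) = c * u1 (Af a b c) (24 * c ^ 3) := by
  unfold Ef at h
  unfold u2 u1 Af
  linear_combination (-9*a^16*c - 162*a^14*b^2*c - 432*a^13*b*c^3 - 1215*a^12*b^4*c - 432*a^12*c^5 - 6480*a^11*b^3*c^3 - 4860*a^10*b^6*c - 12960*a^10*b^2*c^5 - 38880*a^9*b^5*c^3 - 20736*a^9*b*c^7 - 10935*a^8*b^8*c - 116640*a^8*b^4*c^5 - 41472*a^8*c^9 - 116640*a^7*b^7*c^3 - 248832*a^7*b^3*c^7 - 13122*a^6*b^10*c - 466560*a^6*b^6*c^5 - 746496*a^6*b^2*c^9 - 174960*a^5*b^9*c^3 - 1119744*a^5*b^5*c^7 - 1492992*a^5*b*c^11 - 6561*a^4*b^12*c - 874800*a^4*b^8*c^5 - 3545856*a^4*b^4*c^9 + 995328*a^4*c^13 - 104976*a^3*b^11*c^3 - 2239488*a^3*b^7*c^7 - 11943936*a^3*b^3*c^11 - 629856*a^2*b^10*c^5 - 5598720*a^2*b^6*c^9 - 11943936*a^2*b^2*c^13 - 1679616*a*b^9*c^7 - 22394880*a*b^5*c^11 + 23887872*a*b*c^15 - 1679616*b^8*c^9 - 53747712*b^4*c^13 - 47775744*c^17) * h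

theorem rel01 {a b c : R} (h : Ef a b c = 0) :
    a * u1 (Af a b c) (24 * c ^ 3) = b * u0 (Af a b c) (24 * c ^ 3) := by
  unfold Ef at h
  unfold u1 u0 Af
  linear_combination (9*a^17 + 162*a^15*b^2 + 648*a^14*b*c^2 + 1215*a^13*b^4 + 432*a^13*c^4 + 9720*a^12*b^3*c^2 + 4860*a^11*b^6 + 25920*a^11*b^2*c^4 + 58320*a^10*b^5*c^2 + 10368*a^10*b*c^6 + 10935*a^9*b^8 + 272160*a^9*b^4*c^4 + 41472*a^9*c^8 + 174960*a^8*b^7*c^2 + 435456*a^8*b^3*c^6 + 13122*a^7*b^10 + 1166400*a^7*b^6*c^4 + 373248*a^7*b^2*c^8 + 262440*a^6*b^9*c^2 + 3359232*a^6*b^5*c^6 + 1492992*a^6*b*c^10 + 6561*a^5*b^12 + 2274480*a^5*b^8*c^4 + 3919104*a^5*b^4*c^8 - 995328*a^5*c^12 + 157464*a^4*b^11*c^2 + 9517824*a^4*b^7*c^6 + 7464960*a^4*b^3*c^10 + 1679616*a^3*b^10*c^4 + 17915904*a^3*b^6*c^8 + 11943936*a^3*b^2*c^12 + 9237888*a^2*b^9*c^6 + 17915904*a^2*b^5*c^10 - 23887872*a^2*b*c^14 + 25194240*a*b^8*c^8 + 35831808*a*b^4*c^12 + 47775744*a*c^16 + 26873856*b^7*c^10) * h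

end Ring

section Field

variable {R : Type*} [Field R] [CharZero R]

theorem u_eq_zero {s r : R} (h0 : u0 s r = 0) (h1 : u1 s r = 0) : s = 0 ∧ r = 0 := by
  unfold u0 at h0
  unfold u1 at h1
  have h2 : s = 0 ∨ r = 0 := by
    have : s ^ 6 * r ^ 2 = 0 := by linear_combination h0 / 36
    rcases mul_eq_zero.1 this with h | h
    · left; exact pow_eq_zero_iff (by norm_num) |>.1 h
    · right; exact pow_eq_zero_iff (by norm_num) |>.1 h
  rcases h2 with h | h
  · subst h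
    refine ⟨rfl, ?_⟩
    have : r ^ 8 = 0 := by linear_combination -h1
    exact pow_eq_zero_iff (by norm_num) |>.1 this
  · subst h
    refine ⟨?_, rfl⟩
    have : s ^ 8 = 0 := by linear_combination h1 / 9
    exact pow_eq_zero_iff (by norm_num) |>.1 this

omit [CharZero R] in
theorem u_scale (c s r : R) : u0 (c * s) (c * r) = c ^ 8 * u0 s r ∧
    u1 (c * s) (c * r) = c ^ 8 * u1 s r ∧ u2 (c * s) (c * r) = c ^ 8 * u2 s r := by
  unfold u0 u1 u2
  refine ⟨by ring, by ring, by ring⟩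

/-- Every point of the cone over the octic is a value of the parametrization. -/
theorem exists_u [IsAlgClosed R] {a b c : R} (h : Ef a b c = 0) :
    ∃ s r, a = u0 s r ∧ b = u1 s r ∧ c = u2 s r := by
  -- it suffices to find a point up to scaling
  have key : ∀ s r l : R, a = l * u0 s r → b = l * u1 s r → c = l * u2 s r →
      ∃ s r, a = u0 s r ∧ b = u1 s r ∧ c = u2 s r := by
    intro s r l ha hb hc
    obtain ⟨m, hm⟩ := IsAlgClosed.exists_pow_nat_eq l (n := 8) (by norm_num)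
    obtain ⟨e0, e1, e2⟩ := u_scale m s r
    exact ⟨m * s, m * r, by rw [e0, hm, ha], by rw [e1, hm, hb], by rw [e2, hm, hc]⟩
  by_cases hc : c = 0
  · subst hc
    have h1 : a ^ 4 * (a ^ 2 + 3 * b ^ 2) ^ 2 = 0 := by
      unfold Ef at h
      linear_combination h
    have h2 : a = 0 ∨ a ^ 2 + 3 * b ^ 2 = 0 := by
      rcases mul_eq_zero.1 h1 with h | h
      · left; exact pow_eq_zero_iff (by norm_num) |>.1 h
      · right; exact pow_eq_zero_iff (by norm_num) |>.1 h
    rcases h2 with h2 | h2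
    · subst h2
      apply key 0 1 (-b) <;> simp [u0, u1, u2]
    · by_cases hb : b = 0
      · subst hb
        have : a = 0 := by
          have : a ^ 2 = 0 := by linear_combination h2
          exact pow_eq_zero_iff (by norm_num) |>.1 this
        subst this
        exact key 0 1 0 (by simp) (by simp) (by simp)
      · obtain ⟨r, hr⟩ := IsAlgClosed.exists_pow_nat_eq (a / b) (n := 2) (by norm_num)
        have hr' : r ^ 2 * b = a := by
          rw [hr]
          field_simp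
        have hr4 : r ^ 4 = -3 := by
          have : b ^ 2 * (r ^ 4 + 3) = 0 := by
            linear_combination h2 + (r ^ 2 * b + a) * hr'
          rcases mul_eq_zero.1 this with h | h
          · exact absurd (pow_eq_zero_iff (by norm_num) |>.1 h) hb
          · linear_combination h
        apply key 1 r (b / 36)
        · unfold u0
          linear_combination -hr'
        · unfold u1
          linear_combination (b / 36 * (r ^ 4 + 9)) * hr4
        · unfold u2
          linear_combination (-(b / 36) * 3 * r) * hr4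
  · -- the inverse of the parametrization
    have e02 := rel02 h
    have e12 := rel12 h
    set s := Af a b c with hs
    set r := 24 * c ^ 3 with hr
    have hr0 : r ≠ 0 := mul_ne_zero (by norm_num) (pow_ne_zero 3 hc)
    have hu2 : u2 s r ≠ 0 := by
      intro h0
      rw [h0, mul_zero] at e02 e12
      have h3 : u0 s r = 0 := by
        rcases mul_eq_zero.1 e02.symm with h | h
        · exact absurd h hc
        · exact h
      have h4 : u1 s r = 0 := by
        rcases mul_eq_zero.1 e12.symm with h | h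
        · exact absurd h hc
        · exact h
      exact hr0 (u_eq_zero h3 h4).2
    apply key s r (c / u2 s r)
    · field_simp
      linear_combination e02
    · field_simp
      linear_combination e12
    · field_simp

end Field

end Q45.Octic
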