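import Mathlib
import Pool.Agent.Q45.Octic

/-!
The octic as a plane curve: irreducibility of its equation and parameterizability by cubics.
-/

namespace Q45.OcticCurve

open MvPolynomial Q45.Forms Q45.Octic

variable {K : Type*} [Field K]

/-- The equation of the octic. -/
noncomputable def Epoly (K : Type*) [Field K] : MvPolynomial (Fin 3) K := Ef (X 0) (X 1) (X 2)

/-- The parametrization of the octic. -/
noncomputable def upoly (K : Type*) [Field K] : Fin 3 → MvPolynomial (Fin 2) K :=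
  ![u0 (X 0) (X 1), u1 (X 0) (X 1), u2 (X 0) (X 1)]

/-- The two cubics. -/
noncomputable def Fpoly (K : Type*) [Field K] : Fin 2 → MvPolynomial (Fin 3) K :=
  ![Af (X 0) (X 1) (X 2), 24 * X 2 ^ 3]

theorem eval_Epoly (x : Fin 3 → K) : eval x (Epoly K) = Ef (x 0) (x 1) (x 2) := by
  simp [Epoly, Ef]

theorem eval_upoly0 (t : Fin 2 → K) : eval t (upoly K 0) = u0 (t 0) (t 1) := by
  simp [upoly, u0]

theorem eval_upoly1 (t : Fin 2 → K) : eval t (upoly K 1) = u1 (t 0) (t 1) := by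
  simp [upoly, u1]

theorem eval_upoly2 (t : Fin 2 → K) : eval t (upoly K 2) = u2 (t 0) (t 1) := by
  simp [upoly, u2]

theorem ev_upoly (t : Fin 2 → K) :
    ev (upoly K) t = ![u0 (t 0) (t 1), u1 (t 0) (t 1), u2 (t 0) (t 1)] := by
  funext i
  fin_cases i
  · exact eval_upoly0 t
  · exact eval_upoly1 t
  · exact eval_upoly2 t

theorem ev_Fpoly (x : Fin 3 → K) :
    ev (Fpoly K) x = ![Af (x 0) (x 1) (x 2), 24 * x 2 ^ 3] := by
  funext i
  fin_cases i
  · simp [ev, Fpoly, Af]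
  · simp [ev, Fpoly]

theorem hom3 (c : K) (i j k n : ℕ) (h : i + j + k = n) :
    (C c * X 0 ^ i * X 1 ^ j * X 2 ^ k : MvPolynomial (Fin 3) K).IsHomogeneous n := by
  have h1 := (((isHomogeneous_C (Fin 3) c).mul (isHomogeneous_X_pow (R := K) (0 : Fin 3) i)).mul
    (isHomogeneous_X_pow (R := K) (1 : Fin 3) j)).mul (isHomogeneous_X_pow (R := K) (2 : Fin 3) k)
  convert! h1 using 1
  omega

theorem hom2 (c : K) (i j n : ℕ) (h : i + j = n) :
    (C c * X 0 ^ i * X 1 ^ j : MvPolynomial (Fin 2) K).IsHomogeneous n := by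
  have h1 := ((isHomogeneous_C (Fin 2) c).mul (isHomogeneous_X_pow (R := K) (0 : Fin 2) i)).mul
    (isHomogeneous_X_pow (R := K) (1 : Fin 2) j)
  convert! h1 using 1
  omega

theorem Epoly_hom : (Epoly K).IsHomogeneous 8 := by
  have e : Epoly K = C 1 * X 0 ^ 8 * X 1 ^ 0 * X 2 ^ 0 + C 6 * X 0 ^ 6 * X 1 ^ 2 * X 2 ^ 0 +
      C 24 * X 0 ^ 5 * X 1 ^ 1 * X 2 ^ 2 + C 9 * X 0 ^ 4 * X 1 ^ 4 * X 2 ^ 0 -
      C 48 * X 0 ^ 4 * X 1 ^ 0 * X 2 ^ 4 + C 72 * X 0 ^ 3 * X 1 ^ 3 * X 2 ^ 2 -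
      C 1152 * X 0 ^ 1 * X 1 ^ 1 * X 2 ^ 6 - C 2304 * X 0 ^ 0 * X 1 ^ 0 * X 2 ^ 8 := by
    unfold Epoly Ef
    simp only [map_ofNat, map_one]
    ring
  rw [e]
  refine IsHomogeneous.sub (IsHomogeneous.sub (IsHomogeneous.add (IsHomogeneous.sub
    (IsHomogeneous.add (IsHomogeneous.add (IsHomogeneous.add ?_ ?_) ?_) ?_) ?_) ?_) ?_) ?_
  · exact hom3 1 8 0 0 8 rfl
  · exact hom3 6 6 2 0 8 rfl
  · exact hom3 24 5 1 2 8 rfl
  · exact hom3 9 4 4 0 8 rfl
  · exact hom3 48 4 0 4 8 rfl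
  · exact hom3 72 3 3 2 8 rfl
  · exact hom3 1152 1 1 6 8 rfl
  · exact hom3 2304 0 0 8 8 rfl

theorem Af_hom : (Af (X 0) (X 1) (X 2) : MvPolynomial (Fin 3) K).IsHomogeneous 3 := by
  have e : (Af (X 0) (X 1) (X 2) : MvPolynomial (Fin 3) K) =
      C 1 * X 0 ^ 3 * X 1 ^ 0 * X 2 ^ 0 + C 3 * X 0 ^ 1 * X 1 ^ 2 * X 2 ^ 0 +
      C 12 * X 0 ^ 0 * X 1 ^ 1 * X 2 ^ 2 := by
    unfold Af
    simp only [map_ofNat, map_one]
    ring
  rw [e]
  refine IsHomogeneous.add (IsHomogeneous.add ?_ ?_) ?_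
  · exact hom3 1 3 0 0 3 rfl
  · exact hom3 3 1 2 0 3 rfl
  · exact hom3 12 0 1 2 3 rfl

theorem Fpoly_hom (i : Fin 2) : (Fpoly K i).IsHomogeneous 3 := by
  fin_cases i
  · exact Af_hom
  · have e : (24 * X 2 ^ 3 : MvPolynomial (Fin 3) K) = C 24 * X 0 ^ 0 * X 1 ^ 0 * X 2 ^ 3 := by
      simp only [map_ofNat]
      ring
    show (24 * X 2 ^ 3 : MvPolynomial (Fin 3) K).IsHomogeneous 3
    rw [e]
    exact hom3 24 0 0 3 3 rfl

theorem upoly_hom (i : Fin 3) : (upoly K i).IsHomogeneous 8 := by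
  fin_cases i
  · have e : (u0 (X 0) (X 1) : MvPolynomial (Fin 2) K) = C 36 * X 0 ^ 6 * X 1 ^ 2 := by
      unfold u0
      simp only [map_ofNat]
    show (u0 (X 0) (X 1) : MvPolynomial (Fin 2) K).IsHomogeneous 8
    rw [e]
    exact hom2 36 6 2 8 rfl
  · have e : (u1 (X 0) (X 1) : MvPolynomial (Fin 2) K) = C 9 * X 0 ^ 8 * X 1 ^ 0 -
        C 12 * X 0 ^ 4 * X 1 ^ 4 - C 1 * X 0 ^ 0 * X 1 ^ 8 := by
      unfold u1
      simp only [map_ofNat, map_one]
      ring
    show (u1 (X 0) (X 1) : MvPolynomial (Fin 2) K).IsHomogeneous 8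
    rw [e]
    refine IsHomogeneous.sub (IsHomogeneous.sub ?_ ?_) ?_
    · exact hom2 9 8 0 8 rfl
    · exact hom2 12 4 4 8 rfl
    · exact hom2 1 0 8 8 rfl
  · have e : (u2 (X 0) (X 1) : MvPolynomial (Fin 2) K) = C 9 * X 0 ^ 7 * X 1 ^ 1 +
        C 3 * X 0 ^ 3 * X 1 ^ 5 := by
      unfold u2
      simp only [map_ofNat]
      ring
    show (u2 (X 0) (X 1) : MvPolynomial (Fin 2) K).IsHomogeneous 8
    rw [e]
    refine IsHomogeneous.add ?_ ?_
    · exact hom2 9 7 1 8 rfl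
    · exact hom2 3 3 5 8 rfl

theorem eval_Epoly_ev_upoly (t : Fin 2 → K) : eval (ev (upoly K) t) (Epoly K) = 0 := by
  rw [eval_Epoly, ev_upoly]
  exact Ef_u _ _

variable [CharZero K] [IsAlgClosed K]

theorem exists_ev_upoly {x : Fin 3 → K} (h : eval x (Epoly K) = 0) :
    ∃ t, x = ev (upoly K) t := by
  rw [eval_Epoly] at h
  obtain ⟨s, r, h0, h1, h2⟩ := exists_u h
  refine ⟨![s, r], ?_⟩
  rw [ev_upoly]
  funext i
  fin_cases i
  · exact h0
  · exact h1
  · exact h2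

omit [IsAlgClosed K] in
theorem Epoly_ne_zero : Epoly K ≠ 0 := by
  intro h
  have h1 := eval_Epoly (K := K) ![1, 0, 0]
  rw [h] at h1
  simp [Ef] at h1

omit [IsAlgClosed K] [CharZero K] in
theorem pderiv_Epoly : eval ![9, -1, 3] (pderiv 0 (Epoly K)) = (22674816 : K) := by
  have h01 : (pderiv 0 (X 1 : MvPolynomial (Fin 3) K)) = 0 := pderiv_X_of_ne (by decide)
  have h02 : (pderiv 0 (X 2 : MvPolynomial (Fin 3) K)) = 0 := pderiv_X_of_ne (by decide)
  unfold Epoly Ef
  have e : (X 0 ^ 8 + 6 * X 0 ^ 6 * X 1 ^ 2 + 24 * X 0 ^ 5 * X 1 * X 2 ^ 2 +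
      9 * X 0 ^ 4 * X 1 ^ 4 - 48 * X 0 ^ 4 * X 2 ^ 4 +
      72 * X 0 ^ 3 * X 1 ^ 3 * X 2 ^ 2 - 1152 * X 0 * X 1 * X 2 ^ 6 - 2304 * X 2 ^ 8 :
        MvPolynomial (Fin 3) K) = X 0 ^ 8 + C 6 * (X 0 ^ 6 * X 1 ^ 2) +
        C 24 * (X 0 ^ 5 * (X 1 * X 2 ^ 2)) +
      C 9 * (X 0 ^ 4 * X 1 ^ 4) - C 48 * (X 0 ^ 4 * X 2 ^ 4) +
      C 72 * (X 0 ^ 3 * (X 1 ^ 3 * X 2 ^ 2)) - C 1152 * (X 0 * (X 1 * X 2 ^ 6)) -
      C 2304 * X 2 ^ 8 := by
    simp only [map_ofNat]
    ring
  rw [e]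
  simp only [map_add, map_sub, pderiv_mul, pderiv_pow, pderiv_X_self, pderiv_C, h01, h02]
  simp only [map_add, map_mul, map_pow, eval_X, map_zero, map_one, map_ofNat,
    map_natCast]
  simp
  norm_num

/-- A polynomial vanishing on the values of the parametrization vanishes on the octic. -/
theorem vanish_of_vanish_u {P : MvPolynomial (Fin 3) K}
    (h : ∀ t, eval (ev (upoly K) t) P = 0) (x : Fin 3 → K) (hx : eval x (Epoly K) = 0) :
    eval x P = 0 := by
  obtain ⟨t, rfl⟩ := exists_ev_upoly hx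
  exact h t

theorem irreducible_Epoly : Irreducible (Epoly K) := by
  set 𝔭 : Ideal (MvPolynomial (Fin 3) K) := RingHom.ker (aeval (upoly K) :
    MvPolynomial (Fin 3) K →ₐ[K] MvPolynomial (Fin 2) K) with h𝔭
  have hprime : 𝔭.IsPrime := RingHom.ker_isPrime _
  have hmem : ∀ P ∈ 𝔭, ∀ t, eval (ev (upoly K) t) P = 0 := by
    intro P hP t
    rw [← eval_aeval', (RingHom.mem_ker).1 hP, map_zero]
  have hE : Epoly K ∈ 𝔭 := by
    rw [h𝔭, RingHom.mem_ker]
    apply MvPolynomial.funext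
    intro t
    show eval t (aeval (upoly K) (Epoly K)) = eval t 0
    rw [eval_aeval', eval_Epoly_ev_upoly, map_zero]
  have hne : 𝔭 ≠ ⊥ := by
    intro h
    rw [h] at hE
    exact Epoly_ne_zero (Ideal.mem_bot.1 hE)
  obtain ⟨π, hπ, hπp⟩ := hprime.exists_mem_prime_of_ne_bot hne
  obtain ⟨n, hn⟩ := dvd_pow_of_vanish (vanish_of_vanish_u (hmem π hπ))
  obtain ⟨i, -, hi⟩ := (dvd_prime_pow hπp n).1 hn
  have hx0 : eval ![9, -1, 3] (Epoly K) = 0 := by
    rw [eval_Epoly]
    simp [Ef]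
    norm_num
  have hπ0 : eval ![9, -1, 3] π = 0 := vanish_of_vanish_u (hmem π hπ) _ hx0
  rcases Nat.lt_or_ge i 2 with h2 | h2
  · interval_cases i
    · exfalso
      rw [pow_zero] at hi
      have h3 : IsUnit (Epoly K) := (associated_one_iff_isUnit).1 hi
      have h4 := h3.map (eval (![9, -1, 3] : Fin 3 → K))
      rw [hx0] at h4
      exact not_isUnit_zero h4
    · rw [pow_one] at hi
      exact hi.symm.irreducible hπp.irreducible
  · exfalso
    obtain ⟨w, hw⟩ := hi.symm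
    obtain ⟨j, rfl⟩ := Nat.exists_eq_add_of_le h2
    have h3 : Epoly K = π ^ 2 * (π ^ j * w) := by
      rw [← hw]
      ring
    have h4 := pderiv_Epoly (K := K)
    rw [h3, pderiv_mul, pderiv_pow] at h4
    simp only [map_add, map_mul, map_pow, hπ0] at h4
    simp only [Nat.add_one_sub_one, pow_one, mul_zero, zero_mul, add_zero, ne_eq,
      OfNat.ofNat_ne_zero, not_false_eq_true, zero_pow] at h4
    exact absurd h4.symm (by norm_num)

/-- A polynomial vanishing on the values of the parametrization is divisible by `E`. -/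
theorem dvd_of_vanish_u {P : MvPolynomial (Fin 3) K}
    (h : ∀ t, eval (ev (upoly K) t) P = 0) : Epoly K ∣ P :=
  dvd_of_vanish irreducible_Epoly (vanish_of_vanish_u h)

/-- No nonzero form of degree less than eight vanishes on the octic. -/
theorem eq_zero_of_vanish_u {P : MvPolynomial (Fin 3) K} {n : ℕ} (hP : P.IsHomogeneous n)
    (hn : n < 8) (h : ∀ t, eval (ev (upoly K) t) P = 0) : P = 0 := by
  by_contra hne
  obtain ⟨Q, rfl⟩ := dvd_of_vanish_u h
  have hQ : Q ≠ 0 := right_ne_zero_of_mul hne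
  have h1 := totalDegree_mul_of_isDomain (Epoly_ne_zero (K := K)) hQ
  rw [hP.totalDegree hne, Epoly_hom.totalDegree Epoly_ne_zero] at h1
  omega

omit [IsAlgClosed K] [CharZero K] in
theorem not_dvd_of_eval {σ : Type*} {P D : MvPolynomial σ K} (x : σ → K) (hD : eval x D = 0)
    (hP : eval x P ≠ 0) : ¬ D ∣ P := by
  rintro ⟨Q, rfl⟩
  apply hP
  rw [map_mul, hD, zero_mul]

omit [IsAlgClosed K] in
theorem noCommonFactor_Fpoly : NoCommonFactor (Fpoly K) := by
  intro D hD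
  have h0 : D ∣ Af (X 0) (X 1) (X 2) := hD 0
  have h1 : D ∣ 24 * X 2 ^ 3 := hD 1
  have h2 : D ∣ X 2 ^ 3 := by
    have hu : IsUnit (24 : MvPolynomial (Fin 3) K) := by
      have : (24 : MvPolynomial (Fin 3) K) = C 24 := by simp only [map_ofNat]
      rw [this]
      exact (isUnit_iff_ne_zero.2 (by norm_num)).map C
    exact (hu.dvd_mul_left).1 h1
  obtain ⟨i, -, hi⟩ := (dvd_prime_pow (X_prime (i := (2 : Fin 3)) (R := K)) 3).1 h2
  rcases Nat.eq_zero_or_pos i with h3 | h3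
  · subst h3
    rw [pow_zero] at hi
    exact associated_one_iff_isUnit.1 hi
  · exfalso
    have h4 : (X 2 : MvPolynomial (Fin 3) K) ∣ Af (X 0) (X 1) (X 2) :=
      ((dvd_pow_self _ h3.ne').trans hi.symm.dvd).trans h0
    refine not_dvd_of_eval (![1, 0, 0] : Fin 3 → K) ?_ ?_ h4
    · simp
    · simp [Af]

omit [IsAlgClosed K] in
theorem noCommonFactor_upoly : NoCommonFactor (upoly K) := by
  intro D hD
  have h0 : D ∣ u0 (X 0) (X 1) := hD 0
  have h1 : D ∣ u1 (X 0) (X 1) := hD 1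
  by_contra hDu
  have hD0 : D ≠ 0 := by
    rintro rfl
    rw [zero_dvd_iff] at h1
    have h2 := eval_upoly1 (K := K) ![1, 0]
    have h3 : upoly K 1 = u1 (X 0) (X 1) := rfl
    rw [h3, h1] at h2
    simp [u1] at h2
  obtain ⟨π, hπ, hπD⟩ := WfDvdMonoid.exists_irreducible_factor hDu hD0
  have hπp := hπ.prime
  have h2 : π ∣ 36 * X 0 ^ 6 * X 1 ^ 2 := hπD.trans h0
  have h3 : π ∣ u1 (X 0) (X 1) := hπD.trans h1
  have aux : ∀ i : Fin 2, π ∣ X i → (X i : MvPolynomial (Fin 2) K) ∣ u1 (X 0) (X 1) := by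
    intro i hi
    have : Associated π (X i) := hπ.associated_of_dvd (X_prime (i := i) (R := K)).irreducible hi
    exact this.symm.dvd.trans h3
  rcases hπp.dvd_or_dvd h2 with h4 | h4
  · rcases hπp.dvd_or_dvd h4 with h5 | h5
    · have hu : IsUnit (36 : MvPolynomial (Fin 2) K) := by
        have : (36 : MvPolynomial (Fin 2) K) = C 36 := by simp only [map_ofNat]
        rw [this]
        exact (isUnit_iff_ne_zero.2 (by norm_num)).map C
      exact hπ.not_isUnit (isUnit_of_dvd_unit h5 hu)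
    · refine not_dvd_of_eval (![0, 1] : Fin 2 → K) ?_ ?_ (aux 0 (hπp.dvd_of_dvd_pow h5))
      · simp
      · simp [u1]
  · refine not_dvd_of_eval (![1, 0] : Fin 2 → K) ?_ ?_ (aux 1 (hπp.dvd_of_dvd_pow h4))
    · simp
    · simp [u1]

/-- The octic is parameterizable by cubics. -/
theorem paramBy_cubics : ParamBy (Epoly K) 3 (Fpoly K) := by
  refine ⟨Fpoly_hom, noCommonFactor_Fpoly, 8, upoly K, upoly_hom, noCommonFactor_upoly,
    eval_Epoly_ev_upoly, ?_, ?_, ?_⟩
  · intro t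
    rw [ev_Fpoly, ev_upoly]
    have h := Af_u (t 0) (t 1)
    simp only [Matrix.cons_val_zero, Matrix.cons_val_one, Matrix.cons_val]
    by_cases ht : t 1 = 0
    · by_cases ht0 : t 0 = 0
      · refine ⟨0, ?_⟩
        funext i
        fin_cases i <;> simp [ht, ht0, Af, u0, u1, u2]
      · refine ⟨Af (u0 (t 0) (t 1)) (u1 (t 0) (t 1)) (u2 (t 0) (t 1)) / t 0, ?_⟩
        funext i
        fin_cases i
        · simp [ht0]
        · simp [ht, u2]
    · refine ⟨24 * u2 (t 0) (t 1) ^ 3 / t 1, ?_⟩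
      funext i
      fin_cases i
      · simp only [Fin.zero_eta, Matrix.cons_val_zero, Pi.smul_apply, smul_eq_mul]
        field_simp
        linear_combination h
      · simp [ht]
  · intro x hx hFx
    obtain ⟨t, rfl⟩ := exists_ev_upoly hx
    rw [eval_Epoly] at hx
    have e02 := rel02 hx
    have e12 := rel12 hx
    have e01 := rel01 hx
    rw [ev_Fpoly] at hFx ⊢
    rw [ev_upoly (K := K) ![_, _]]
    set x := ev (upoly K) t with hxdef
    set s := Af (x 0) (x 1) (x 2) with hs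
    set r := 24 * x 2 ^ 3 with hr
    simp only [Matrix.cons_val_zero, Matrix.cons_val_one]
    have hune : ¬ (u0 s r = 0 ∧ u1 s r = 0) := by
      rintro ⟨h0, h1⟩
      obtain ⟨hs0, hr0⟩ := u_eq_zero h0 h1
      apply hFx
      rw [hs0, hr0]
      funext i
      fin_cases i <;> rfl
    have hxne : ∃ i, x i ≠ 0 := by
      by_contra hcon
      push Not at hcon
      apply hFx
      rw [hs, hr, hcon 0, hcon 1, hcon 2]
      funext i
      fin_cases i <;> simp [Af]
    have main : ∃ c : K, ![u0 s r, u1 s r, u2 s r] = c • x := by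
      obtain ⟨i, hi⟩ := hxne
      fin_cases i
      · refine ⟨u0 s r / x 0, ?_⟩
        funext j
        fin_cases j
        · show u0 s r = u0 s r / x 0 * x 0
          have hi' : x 0 ≠ 0 := hi
          field_simp
        · show u1 s r = u0 s r / x 0 * x 1
          have hi' : x 0 ≠ 0 := hi
          field_simp
          linear_combination e01
        · show u2 s r = u0 s r / x 0 * x 2
          have hi' : x 0 ≠ 0 := hi
          field_simp
          linear_combination e02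
      · refine ⟨u1 s r / x 1, ?_⟩
        have hi' : x 1 ≠ 0 := hi
        funext j
        fin_cases j
        · show u0 s r = u1 s r / x 1 * x 0
          field_simp
          linear_combination -e01
        · show u1 s r = u1 s r / x 1 * x 1
          field_simp
        · show u2 s r = u1 s r / x 1 * x 2
          field_simp
          linear_combination e12
      · refine ⟨u2 s r / x 2, ?_⟩
        have hi' : x 2 ≠ 0 := hi
        funext j
        fin_cases j
        · show u0 s r = u2 s r / x 2 * x 0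
          field_simp
          linear_combination -e02
        · show u1 s r = u2 s r / x 2 * x 1
          field_simp
          linear_combination -e12
        · show u2 s r = u2 s r / x 2 * x 2
          field_simp
    obtain ⟨c, hc⟩ := main
    refine ⟨c, ?_, hc⟩
    rintro rfl
    apply hune
    rw [zero_smul] at hc
    exact ⟨congrFun hc 0, congrFun hc 1⟩
  · refine ⟨![9, -1, 3], ?_, ?_⟩
    · rw [eval_Epoly]
      simp [Ef]
      norm_num
    · rw [ev_Fpoly]
      intro h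
      have := congrFun h 1
      simp at this

end Q45.OcticCurve
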