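import Mathlib

/-!
A smooth plane cubic of the pencil `X₀³ + 3X₀X₁² + 12X₁X₂² - κX₂³` has no nonconstant polynomial
parametrization.
-/

namespace Q45.SmoothCubic

open Polynomial

variable {K : Type*} [Field K] [CharZero K]

theorem smooth {κ : K} (hκ : κ ^ 4 ≠ -16384) {p₀ p₁ p₂ : K} (h₀ : 3 * p₀ ^ 2 + 3 * p₁ ^ 2 = 0)
    (h₁ : 6 * p₀ * p₁ + 12 * p₂ ^ 2 = 0) (h₂ : 24 * p₁ * p₂ - 3 * κ * p₂ ^ 2 = 0) :
    p₀ = 0 ∧ p₁ = 0 ∧ p₂ = 0 := by
  by_cases hp : p₂ = 0
  · subst hp
    have h3 : p₀ * p₁ = 0 := by linear_combination h₁ / 6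
    have h4 : p₀ ^ 2 + p₁ ^ 2 = 0 := by linear_combination h₀ / 3
    rcases mul_eq_zero.1 h3 with h | h
    · subst h
      refine ⟨rfl, ?_, rfl⟩
      simpa using h4
    · subst h
      refine ⟨?_, rfl, rfl⟩
      simpa using h4
  · exfalso
    have h3 : 8 * p₁ = κ * p₂ := by
      have : p₂ * (8 * p₁ - κ * p₂) = 0 := by linear_combination h₂ / 3
      rcases mul_eq_zero.1 this with h | h
      · exact absurd h hp
      · linear_combination h
    have h4 : p₀ * p₁ = -2 * p₂ ^ 2 := by linear_combination h₁ / 6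
    have h5 : p₀ ^ 2 = -p₁ ^ 2 := by linear_combination h₀ / 3
    have h6 : p₁ ^ 4 = -4 * p₂ ^ 4 := by
      have : p₀ ^ 2 * p₁ ^ 2 = 4 * p₂ ^ 4 := by
        have : (p₀ * p₁) ^ 2 = (-2 * p₂ ^ 2) ^ 2 := by rw [h4]
        linear_combination this
      rw [h5] at this
      linear_combination -this
    have h7 : κ ^ 4 * p₂ ^ 4 = -16384 * p₂ ^ 4 := by
      have : (8 * p₁) ^ 4 = (κ * p₂) ^ 4 := by rw [h3]
      linear_combination -this + 4096 * h6
    exact hκ (mul_right_cancel₀ (pow_ne_zero 4 hp) h7)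

/-- A finite family generating the unit ideal after division by a common factor. -/
theorem exists_gcd {K : Type*} [Field K] (g : Fin 3 → K[X]) (hg : ∃ i, g i ≠ 0) :
    ∃ (w : K[X]) (h a : Fin 3 → K[X]), w ≠ 0 ∧ (∀ i, g i = w * h i) ∧ ∑ i, a i * h i = 1 := by
  set I := Ideal.span (Set.range g) with hI
  set w := Submodule.IsPrincipal.generator I with hw
  have hmem : w ∈ I := Submodule.IsPrincipal.generator_mem I
  have hdvd : ∀ i, w ∣ g i := fun i =>
    (Submodule.IsPrincipal.mem_iff_generator_dvd I).1 (Ideal.subset_span ⟨i, rfl⟩)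
  choose h hh using hdvd
  obtain ⟨a, ha⟩ := Ideal.mem_span_range_iff_exists_fun.1 hmem
  have hw0 : w ≠ 0 := by
    obtain ⟨i, hi⟩ := hg
    intro h0
    apply hi
    rw [hh i, h0, zero_mul]
  refine ⟨w, h, a, hw0, hh, ?_⟩
  apply mul_left_cancel₀ hw0
  rw [mul_one, Finset.mul_sum]
  conv_rhs => rw [← ha]
  apply Finset.sum_congr rfl
  intro i _
  rw [hh i]
  ring

/-- A family of polynomials without a common root generates the unit ideal. -/
theorem exists_unimodular {K : Type*} [Field K] [IsAlgClosed K] (W : Fin 3 → K[X])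
    (hW : ∀ z, ∃ i, (W i).eval z ≠ 0) : ∃ b : Fin 3 → K[X], ∑ i, b i * W i = 1 := by
  have hne : ∃ i, W i ≠ 0 := by
    obtain ⟨i, hi⟩ := hW 0
    exact ⟨i, fun h => hi (by rw [h, eval_zero])⟩
  obtain ⟨w, h, a, hw0, hh, ha⟩ := exists_gcd W hne
  have hdeg : w.degree = 0 := by
    by_contra hcon
    obtain ⟨z, hz⟩ := IsAlgClosed.exists_root w hcon
    obtain ⟨i, hi⟩ := hW z
    apply hi
    rw [hh i, eval_mul, hz, zero_mul]
  have hw : w = C (w.coeff 0) := eq_C_of_degree_eq_zero hdeg
  have hc : w.coeff 0 ≠ 0 := by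
    intro h0
    rw [h0, C_0] at hw
    exact hw0 hw
  refine ⟨fun i => C (w.coeff 0)⁻¹ * a i, ?_⟩
  rw [← ha]
  apply Finset.sum_congr rfl
  intro i _
  have h1 : (C (w.coeff 0)⁻¹ : K[X]) * w = 1 := by
    conv_lhs => rw [hw]
    rw [coeff_C_zero, ← C_mul, inv_mul_cancel₀ hc, C_1]
  rw [hh i]
  linear_combination (a i * h i) * h1

theorem no_param [IsAlgClosed K] {κ : K} (hκ : κ ^ 4 ≠ -16384) (g : Fin 3 → K[X])
    (hg : ∃ i, g i ≠ 0)
    (hΦ : g 0 ^ 3 + 3 * g 0 * g 1 ^ 2 + 12 * g 1 * g 2 ^ 2 - C κ * g 2 ^ 3 = 0) :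
    ∃ (w : K[X]) (c : Fin 3 → K), ∀ i, g i = w * C (c i) := by
  obtain ⟨w, h, a, hw0, hh, ha⟩ := exists_gcd g hg
  have hΦ' : h 0 ^ 3 + 3 * h 0 * h 1 ^ 2 + 12 * h 1 * h 2 ^ 2 - C κ * h 2 ^ 3 = 0 := by
    have h1 : w ^ 3 * (h 0 ^ 3 + 3 * h 0 * h 1 ^ 2 + 12 * h 1 * h 2 ^ 2 - C κ * h 2 ^ 3) = 0 := by
      rw [hh 0, hh 1, hh 2] at hΦ
      linear_combination hΦ
    rcases mul_eq_zero.1 h1 with h2 | h2
    · exact absurd h2 (pow_ne_zero 3 hw0)
    · exact h2
  set W : Fin 3 → K[X] := ![3 * h 0 ^ 2 + 3 * h 1 ^ 2, 6 * h 0 * h 1 + 12 * h 2 ^ 2,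
    24 * h 1 * h 2 - 3 * C κ * h 2 ^ 2] with hWdef
  have hW0 : W 0 = 3 * h 0 ^ 2 + 3 * h 1 ^ 2 := rfl
  have hW1 : W 1 = 6 * h 0 * h 1 + 12 * h 2 ^ 2 := rfl
  have hW2 : W 2 = 24 * h 1 * h 2 - 3 * C κ * h 2 ^ 2 := rfl
  have hroot : ∀ z, ∃ i, (W i).eval z ≠ 0 := by
    intro z
    by_contra hcon
    push Not at hcon
    have e0 := hcon 0
    have e1 := hcon 1
    have e2 := hcon 2
    rw [hW0] at e0
    rw [hW1] at e1
    rw [hW2] at e2
    simp only [eval_add, eval_sub, eval_mul, eval_pow, eval_C, eval_ofNat] at e0 e1 e2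
    obtain ⟨q0, q1, q2⟩ := smooth hκ e0 e1 e2
    have := congrArg (eval z) ha
    rw [Fin.sum_univ_three] at this
    simp only [eval_add, eval_mul, q0, q1, q2, mul_zero, add_zero, eval_one] at this
    exact zero_ne_one this
  obtain ⟨b, hb⟩ := exists_unimodular W hroot
  rw [Fin.sum_univ_three] at ha hb
  have hEul : W 0 * h 0 + W 1 * h 1 + W 2 * h 2 = 0 := by
    rw [hW0, hW1, hW2]
    linear_combination 3 * hΦ'
  have hder : W 0 * derivative (h 0) + W 1 * derivative (h 1) + W 2 * derivative (h 2) = 0 := by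
    have := congrArg derivative hΦ'
    simp only [derivative_add, derivative_sub, derivative_mul, derivative_pow, derivative_C,
      derivative_zero, derivative_ofNat] at this
    rw [hW0, hW1, hW2]
    simp only [Nat.cast_ofNat, map_ofNat] at this
    linear_combination this
  set n0 := h 1 * derivative (h 2) - h 2 * derivative (h 1) with hn0
  set n1 := h 2 * derivative (h 0) - h 0 * derivative (h 2) with hn1
  set n2 := h 0 * derivative (h 1) - h 1 * derivative (h 0) with hn2
  have c01 : W 0 * n1 = W 1 * n0 := by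
    rw [hn1, hn0]
    linear_combination (derivative (h 2)) * (-hEul) + (h 2) * hder
  have c12 : W 1 * n2 = W 2 * n1 := by
    rw [hn2, hn1]
    linear_combination (derivative (h 0)) * (-hEul) + (h 0) * hder
  have c20 : W 2 * n0 = W 0 * n2 := by
    rw [hn0, hn2]
    linear_combination (derivative (h 1)) * (-hEul) + (h 1) * hder
  set k := b 0 * n0 + b 1 * n1 + b 2 * n2 with hk
  have k0 : n0 = k * W 0 := by
    rw [hk]
    linear_combination (-n0) * hb - b 1 * c01 + b 2 * c20
  have k1 : n1 = k * W 1 := by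
    rw [hk]
    linear_combination (-n1) * hb + b 0 * c01 - b 2 * c12
  have k2 : n2 = k * W 2 := by
    rw [hk]
    linear_combination (-n2) * hb - b 0 * c20 + b 1 * c12
  -- degrees
  set m := max (h 0).natDegree (max (h 1).natDegree (h 2).natDegree) with hm
  have d0 : (h 0).natDegree ≤ m := le_max_left _ _
  have d1 : (h 1).natDegree ≤ m := le_trans (le_max_left _ _) (le_max_right _ _)
  have d2 : (h 2).natDegree ≤ m := le_trans (le_max_right _ _) (le_max_right _ _)
  by_cases hm0 : m = 0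
  · refine ⟨w, fun i => (h i).coeff 0, ?_⟩
    have hconst : ∀ i, h i = C ((h i).coeff 0) := by
      intro i
      apply eq_C_of_natDegree_eq_zero
      fin_cases i
      · exact Nat.le_zero.1 (hm0 ▸ d0)
      · exact Nat.le_zero.1 (hm0 ▸ d1)
      · exact Nat.le_zero.1 (hm0 ▸ d2)
    intro i
    rw [hh i]
    congr 1
    exact hconst i
  have hlead : ∃ i, (h i).coeff m ≠ 0 := by
    by_contra hcon
    push Not at hcon
    have aux : ∀ i, (h i).natDegree = m → False := by
      intro i hi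
      have h1 := hcon i
      rw [← hi] at h1
      have h2 : h i = 0 := leadingCoeff_eq_zero.1 h1
      rw [h2, natDegree_zero] at hi
      exact hm0 hi.symm
    rcases max_choice (h 0).natDegree (max (h 1).natDegree (h 2).natDegree) with e | e
    · exact aux 0 (e.symm.trans hm.symm ▸ rfl)
    · rcases max_choice (h 1).natDegree (h 2).natDegree with e' | e'
      · exact aux 1 (by rw [hm, e, e'])
      · exact aux 2 (by rw [hm, e, e'])
  have hcoef : ∀ (p q : K[X]), p.natDegree ≤ m → q.natDegree ≤ m →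
      (p * q).coeff (m + m) = p.coeff m * q.coeff m :=
    fun p q hp hq => coeff_mul_add_eq_of_natDegree_le hp hq
  have w0 : (W 0).coeff (m + m) = 3 * (h 0).coeff m ^ 2 + 3 * (h 1).coeff m ^ 2 := by
    have e : W 0 = C 3 * (h 0 * h 0) + C 3 * (h 1 * h 1) := by
      rw [hW0]; simp only [map_ofNat]; ring
    rw [e, coeff_add, coeff_C_mul, coeff_C_mul, hcoef _ _ d0 d0, hcoef _ _ d1 d1]
    ring
  have w1 : (W 1).coeff (m + m) = 6 * (h 0).coeff m * (h 1).coeff m + 12 * (h 2).coeff m ^ 2 := by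
    have e : W 1 = C 6 * (h 0 * h 1) + C 12 * (h 2 * h 2) := by
      rw [hW1]; simp only [map_ofNat]; ring
    rw [e, coeff_add, coeff_C_mul, coeff_C_mul, hcoef _ _ d0 d1, hcoef _ _ d2 d2]
    ring
  have w2 : (W 2).coeff (m + m) = 24 * (h 1).coeff m * (h 2).coeff m -
      3 * κ * (h 2).coeff m ^ 2 := by
    have e : W 2 = C 24 * (h 1 * h 2) - C 3 * (C κ * (h 2 * h 2)) := by
      rw [hW2]; simp only [map_ofNat]; ring
    rw [e, coeff_sub, coeff_C_mul, coeff_C_mul, coeff_C_mul, hcoef _ _ d1 d2, hcoef _ _ d2 d2]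
    ring
  have hWlead : ∃ i, (W i).coeff (m + m) ≠ 0 := by
    by_contra hcon
    push Not at hcon
    obtain ⟨q0, q1, q2⟩ := smooth hκ (w0 ▸ hcon 0) (w1 ▸ hcon 1) (w2 ▸ hcon 2)
    obtain ⟨i, hi⟩ := hlead
    fin_cases i
    · exact hi q0
    · exact hi q1
    · exact hi q2
  have hder_deg : ∀ p : K[X], p.natDegree ≤ m → (derivative p).natDegree ≤ m - 1 := by
    intro p hp
    exact le_trans (natDegree_derivative_le p) (Nat.sub_le_sub_right hp 1)
  have hprod : ∀ p q : K[X], p.natDegree ≤ m → q.natDegree ≤ m →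
      (p * derivative q).coeff (m + m + 0) = 0 := by
    intro p q hp hq
    apply coeff_eq_zero_of_natDegree_lt
    have h1 := natDegree_mul_le (p := p) (q := derivative q)
    have h2 := hder_deg q hq
    omega
  -- all coefficients of `nᵢ` in degree at least `2m` vanish
  have hNdeg : ∀ p q : K[X], p.natDegree ≤ m → q.natDegree ≤ m →
      (p * derivative q - q * derivative p).natDegree < m + m := by
    intro p q hp hq
    have h1 := natDegree_mul_le (p := p) (q := derivative q)
    have h2 := hder_deg q hq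
    have h3 := natDegree_mul_le (p := q) (q := derivative p)
    have h4 := hder_deg p hp
    have h5 := natDegree_sub_le (p * derivative q) (q * derivative p)
    have h6 : max (p * derivative q).natDegree (q * derivative p).natDegree < m + m :=
      max_lt (by omega) (by omega)
    omega
  have hk0 : k = 0 := by
    by_contra hkne
    obtain ⟨i, hi⟩ := hWlead
    have hWne : W i ≠ 0 := fun h0 => hi (by rw [h0, coeff_zero])
    have h1 : m + m ≤ (W i).natDegree := le_natDegree_of_ne_zero hi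
    have h2 : (k * W i).natDegree = k.natDegree + (W i).natDegree := natDegree_mul hkne hWne
    have h3 : (k * W i).natDegree < m + m := by
      fin_cases i
      · show (k * W 0).natDegree < m + m
        rw [← k0]; exact hNdeg _ _ d1 d2
      · show (k * W 1).natDegree < m + m
        rw [← k1]; exact hNdeg _ _ d2 d0
      · show (k * W 2).natDegree < m + m
        rw [← k2]; exact hNdeg _ _ d0 d1
    omega
  rw [hk0, zero_mul] at k0 k1 k2
  set μ := a 0 * derivative (h 0) + a 1 * derivative (h 1) + a 2 * derivative (h 2) with hμ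
  have e0 : derivative (h 0) = h 0 * μ := by
    rw [hμ]
    linear_combination (-(derivative (h 0))) * ha - a 1 * k2 + a 2 * k1
  have e1 : derivative (h 1) = h 1 * μ := by
    rw [hμ]
    linear_combination (-(derivative (h 1))) * ha - a 2 * k0 + a 0 * k2
  have e2 : derivative (h 2) = h 2 * μ := by
    rw [hμ]
    linear_combination (-(derivative (h 2))) * ha - a 0 * k1 + a 1 * k0
  have hconst : ∀ p : K[X], derivative p = p * μ → p.natDegree = 0 := by
    intro p hp
    by_contra hne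
    have hlt : (derivative p).natDegree < p.natDegree := natDegree_derivative_lt hne
    have hdne : derivative p ≠ 0 := by
      intro h0
      exact hne (derivative_eq_zero.1 h0)
    have hμne : μ ≠ 0 := by
      intro h0
      rw [h0, mul_zero] at hp
      exact hdne hp
    have hpne : p ≠ 0 := by
      intro h0
      rw [h0, natDegree_zero] at hne
      exact hne rfl
    rw [hp, natDegree_mul hpne hμne] at hlt
    omega
  exfalso
  apply hm0
  rw [hm, hconst _ e0, hconst _ e1, hconst _ e2]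
  rfl

end Q45.SmoothCubic
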