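import Mathlib
import Pool.Agent.Q45.OcticCurve
import Pool.Agent.Q45.SmoothCubic
import Pool.Agent.Q45.MobiusLemma
import Pool.Agent.Q45.LineParam

/-!
The octic is not the closure of the image of a curve parameterizable by lines, singular at
`(0:0:1)`, under a birational map whose inverse is given by cubic forms.
-/

namespace Q45.NotInS

open MvPolynomial Q45.Forms Q45.Octic Q45.OcticCurve

variable {K : Type*} [Field K]

theorem aeval_Ef {A : Type*} [CommRing A] [Algebra K A] (x : Fin 3 → A) :
    aeval x (Epoly K) = Ef (x 0) (x 1) (x 2) := by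
  simp [Epoly, Ef]

theorem aeval_Af {A : Type*} [CommRing A] [Algebra K A] (x : Fin 3 → A) :
    aeval x (Af (X 0) (X 1) (X 2) : MvPolynomial (Fin 3) K) = Af (x 0) (x 1) (x 2) := by
  simp [Af]

/-- Evaluation of a composite at a scalar. -/
theorem eval_aeval_poly {ι : Type*} (w : ι → Polynomial K) (p : MvPolynomial ι K) (z : K) :
    (aeval w p).eval z = eval (fun i => (w i).eval z) p := by
  induction p using MvPolynomial.induction_on with
  | C a => simp
  | add p q hp hq => simp only [map_add, Polynomial.eval_add, hp, hq]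
  | mul_X p i hp => simp only [map_mul, Polynomial.eval_mul, hp, aeval_X, eval_X]

/-- Substituting in a composite. -/
theorem aeval_aeval_poly {ι A : Type*} [CommRing A] [Algebra K A] (w : ι → Polynomial K)
    (p : MvPolynomial ι K) (ρ : A) :
    Polynomial.aeval ρ (aeval w p) = aeval (fun i => Polynomial.aeval ρ (w i)) p := by
  induction p using MvPolynomial.induction_on with
  | C a => simp
  | add p q hp hq => simp only [map_add, hp, hq]
  | mul_X p i hp => simp only [map_mul, hp, aeval_X]

variable [CharZero K] [IsAlgClosed K]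

/-- The parametrization of the octic with `r = 1`. -/
noncomputable def uu (K : Type*) [Field K] : Fin 3 → Polynomial K :=
  ![u0 Polynomial.X 1, u1 Polynomial.X 1, u2 Polynomial.X 1]

omit [CharZero K] [IsAlgClosed K] in
theorem eval_uu (s : K) : (fun i => (uu K i).eval s) = ev (upoly K) ![s, 1] := by
  rw [ev_upoly]
  funext i
  fin_cases i
  · simp [uu, u0]
  · simp [uu, u1]
  · simp [uu, u2]

/-- A form of degree less than seven vanishing on the affine part of the octic vanishes. -/
theorem eq_zero_of_aeval_uu {P : MvPolynomial (Fin 3) K} {n : ℕ} (hP : P.IsHomogeneous n)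
    (hn : n < 7) (h : aeval (uu K) P = 0) : P = 0 := by
  have h1 : ∀ s, eval (ev (upoly K) ![s, 1]) P = 0 := by
    intro s
    rw [← eval_uu, ← eval_aeval_poly, h, Polynomial.eval_zero]
  have h2 : ∀ t, eval (ev (upoly K) t) (X 2 * P) = 0 := by
    intro t
    rw [map_mul, eval_X]
    by_cases ht : t 1 = 0
    · have : ev (upoly K) t 2 = 0 := by
        show eval t (upoly K 2) = 0
        rw [eval_upoly2, ht]
        simp [u2]
      rw [this, zero_mul]
    · have e : t = t 1 • ![t 0 / t 1, 1] := by
        funext i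
        fin_cases i
        · simp only [Fin.zero_eta, Pi.smul_apply, Matrix.cons_val_zero, smul_eq_mul]
          field_simp
        · simp
      have e2 : eval (ev (upoly K) t) P = 0 := by
        rw [e, ev_smul upoly_hom, eval_smul hP, h1, mul_zero]
      rw [e2, mul_zero]
  have h3 : (X 2 * P : MvPolynomial (Fin 3) K) = 0 :=
    eq_zero_of_vanish_u ((isHomogeneous_X K (2 : Fin 3)).mul hP) (by omega) h2
  exact (mul_eq_zero.1 h3).resolve_left (X_ne_zero 2)

/-- Two cubic forms in the ratio of the parameter on the octic are proportional to the two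
standard cubics. -/
theorem proportional {F₀ F₁ : MvPolynomial (Fin 3) K} (h₀ : F₀.IsHomogeneous 3)
    (h₁ : F₁.IsHomogeneous 3) (h : aeval (uu K) F₀ = Polynomial.X * aeval (uu K) F₁) :
    ∃ l : K, F₁ = C l * X 2 ^ 3 ∧ 24 * F₀ = C l * Af (X 0) (X 1) (X 2) := by
  have hP : (24 * X 2 ^ 3 * F₀ - Af (X 0) (X 1) (X 2) * F₁ : MvPolynomial (Fin 3) K) = 0 := by
    apply eq_zero_of_aeval_uu (n := 6)
    · have e : (24 * X 2 ^ 3 : MvPolynomial (Fin 3) K).IsHomogeneous 3 := Fpoly_hom (K := K) 1
      exact (e.mul h₀).sub (Af_hom.mul h₁)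
    · norm_num
    · simp only [map_sub, map_mul, aeval_Af, h, map_pow, aeval_X, map_ofNat]
      have h1 := Af_u (Polynomial.X : Polynomial K) 1
      have e0 : uu K 0 = u0 Polynomial.X 1 := rfl
      have e1 : uu K 1 = u1 Polynomial.X 1 := rfl
      have e2 : uu K 2 = u2 Polynomial.X 1 := rfl
      rw [e0, e1, e2]
      linear_combination (-(aeval (uu K) F₁)) * h1
  have hA : ¬ (X 2 : MvPolynomial (Fin 3) K) ∣ Af (X 0) (X 1) (X 2) := by
    apply not_dvd_of_eval (![1, 0, 0] : Fin 3 → K)
    · simp
    · simp [Af]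
  have hX2 : Prime (X 2 : MvPolynomial (Fin 3) K) := X_prime
  have hdvd : (X 2 ^ 3 : MvPolynomial (Fin 3) K) ∣ F₁ := by
    apply hX2.pow_dvd_of_dvd_mul_left 3 hA
    refine ⟨24 * F₀, ?_⟩
    linear_combination -hP
  obtain ⟨R, rfl⟩ := hdvd
  have hR : ∃ l : K, R = C l := by
    by_cases hR0 : R = 0
    · exact ⟨0, by rw [hR0, C_0]⟩
    · have hX3 : (X 2 ^ 3 : MvPolynomial (Fin 3) K) ≠ 0 := pow_ne_zero 3 (X_ne_zero 2)
      have h2 := totalDegree_mul_of_isDomain hX3 hR0
      rw [h₁.totalDegree (mul_ne_zero hX3 hR0), (isHomogeneous_X_pow (R := K) (2 : Fin 3)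
        3).totalDegree hX3] at h2
      have h3 : R.totalDegree = 0 := by omega
      exact ⟨_, totalDegree_eq_zero_iff_eq_C.1 h3⟩
  obtain ⟨l, rfl⟩ := hR
  refine ⟨l, by ring, ?_⟩
  have hX3 : (X 2 ^ 3 : MvPolynomial (Fin 3) K) ≠ 0 := pow_ne_zero 3 (X_ne_zero 2)
  apply mul_left_cancel₀ hX3
  linear_combination hP

/-- The octic is not in the class. -/
theorem not_InS : ¬ InS (Epoly K) := by
  rintro ⟨G, F, E₀, ⟨m, hG⟩, -, hF, hFG, ⟨x₀, hx₀⟩, -, -, ⟨hE₀, -⟩, ⟨L, hL⟩, ⟨hs0, hs⟩, hcl⟩
  obtain ⟨hX1, w, hw, hw01, hw1, hparam⟩ := LineParam.main hE₀ hL hs0 hs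
  -- the image lies on the octic
  have himage : ∀ x, eval x E₀ = 0 → eval (ev G x) (Epoly K) = 0 := by
    intro x hx
    by_cases h : ev G x = 0
    · rw [h]
      exact eval_zero' Epoly_hom (by norm_num)
    · exact (hcl _ h).2 fun n P _ hP => hP x hx h
  -- a cubic form vanishing on the image vanishes
  have hclosure : ∀ P : MvPolynomial (Fin 3) K, P.IsHomogeneous 3 →
      (∀ x, eval x E₀ = 0 → eval (ev G x) P = 0) → P = 0 := by
    intro P hP h
    apply eq_zero_of_vanish_u hP (by norm_num)
    intro t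
    by_cases ht : ev (upoly K) t = 0
    · rw [ht]
      exact eval_zero' hP (by norm_num)
    · exact (hcl _ ht).1 (eval_Epoly_ev_upoly t) 3 P hP fun x hx _ => h x hx
  have hF0 : ev F (0 : Fin 3 → K) = 0 := by
    funext i
    exact eval_zero' (hF i) (by norm_num)
  -- the composite parametrization
  let v : Fin 3 → Polynomial K := fun i => aeval w (G i)
  have hv : ∀ z, (fun i => (v i).eval z) = ev G (fun i => (w i).eval z) := by
    intro z
    funext i
    exact eval_aeval_poly w (G i) z
  let f : Fin 3 → Polynomial K := fun k => aeval v (F k)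
  have hf : ∀ z k, (f k).eval z = ev F (ev G (fun i => (w i).eval z)) k := by
    intro z k
    show (aeval v (F k)).eval z = _
    rw [eval_aeval_poly, hv]
    rfl
  have hf01 : f 0 = Polynomial.X * f 1 := by
    apply Polynomial.funext
    intro z
    obtain ⟨c, hc⟩ := hFG (fun i => (w i).eval z)
    rw [Polynomial.eval_mul, Polynomial.eval_X, hf, hf, hc]
    simp only [Pi.smul_apply, smul_eq_mul]
    rw [hw01, Polynomial.eval_mul, Polynomial.eval_X]
    ring
  -- `f 1` is not zero
  have hf1 : f 1 ≠ 0 := by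
    intro h0
    have hf0 : f 0 = 0 := by rw [hf01, h0, mul_zero]
    have hvan : ∀ k, f k = 0 → F k = 0 := by
      intro k hk
      apply hclosure (F k) (hF k)
      intro x hx
      have h1 : E₀ ∣ X 1 * aeval G (F k) := by
        apply dvd_of_vanish hE₀
        intro y hy
        rw [map_mul, eval_X, eval_aeval']
        by_cases hy1 : y 1 = 0
        · rw [hy1, zero_mul]
        · obtain ⟨c, hc, hcy⟩ := hparam y hy hy1
          have h2 := hf (y 0 / y 1) k
          rw [hk, Polynomial.eval_zero, hcy, ev_smul hG, ev_smul hF] at h2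
          simp only [Pi.smul_apply, smul_eq_mul] at h2
          have h3 : ev F (ev G y) k = 0 := by
            rcases mul_eq_zero.1 h2.symm with h | h
            · exact absurd h (pow_ne_zero _ (pow_ne_zero _ hc))
            · exact h
          have h4 : eval (ev G y) (F k) = 0 := h3
          rw [h4, mul_zero]
      have h2 : E₀ ∣ aeval G (F k) := (hE₀.prime.dvd_or_dvd h1).resolve_left hX1
      obtain ⟨S, hS⟩ := h2
      rw [← eval_aeval', hS, map_mul, hx, zero_mul]
    have hF0' : F 0 = 0 := hvan 0 hf0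
    have hF1' : F 1 = 0 := hvan 1 h0
    have h2 : (X 0 * aeval G (F 2) : MvPolynomial (Fin 3) K) = 0 := by
      apply MvPolynomial.funext
      intro x
      obtain ⟨c, hc⟩ := hFG x
      rw [map_mul, eval_X, eval_aeval', map_zero]
      have h3 : eval (ev G x) (F 2) = c * x 2 := congrFun hc 2
      have h4 : eval (ev G x) (F 0) = c * x 0 := congrFun hc 0
      rw [hF0', map_zero] at h4
      rw [h3]
      linear_combination (-(x 2)) * h4
    have h3 := (mul_eq_zero.1 h2).resolve_left (X_ne_zero 0)
    apply hx₀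
    funext i
    show eval (ev G x₀) (F i) = 0
    fin_cases i
    · show eval (ev G x₀) (F 0) = 0
      rw [hF0', map_zero]
    · show eval (ev G x₀) (F 1) = 0
      rw [hF1', map_zero]
    · show eval (ev G x₀) (F 2) = 0
      rw [← eval_aeval', h3, map_zero]
  -- the composite lies on the octic
  have hEv : Ef (v 0) (v 1) (v 2) = 0 := by
    rw [← aeval_Ef (K := K) v]
    apply Polynomial.funext
    intro z
    rw [eval_aeval_poly, hv, himage _ (hw z), Polynomial.eval_zero]
  -- the third coordinate does not vanish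
  have hv2 : v 2 ≠ 0 := by
    intro h0
    have hcon : ∀ (q : K), v 0 = Polynomial.C q * v 1 → False := by
      intro q hq
      have hv1 : v 1 ≠ 0 := by
        intro h1
        apply hf1
        rw [h1, mul_zero] at hq
        show aeval v (F 1) = 0
        apply Polynomial.funext
        intro z
        rw [eval_aeval_poly, Polynomial.eval_zero]
        have : (fun i => (v i).eval z) = 0 := by
          funext i
          fin_cases i
          · show (v 0).eval z = 0
            rw [hq, Polynomial.eval_zero]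
          · show (v 1).eval z = 0
            rw [h1, Polynomial.eval_zero]
          · show (v 2).eval z = 0
            rw [h0, Polynomial.eval_zero]
        rw [this]
        exact eval_zero' (hF 1) (by norm_num)
      have hfk : ∀ k, f k = v 1 ^ 3 * Polynomial.C (eval ![q, 1, 0] (F k)) := by
        intro k
        apply Polynomial.funext
        intro z
        show (aeval v (F k)).eval z = _
        rw [eval_aeval_poly]
        have : (fun i => (v i).eval z) = (v 1).eval z • ![q, 1, 0] := by
          funext i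
          fin_cases i
          · show (v 0).eval z = (v 1).eval z * q
            rw [hq, Polynomial.eval_mul, Polynomial.eval_C, mul_comm]
          · show (v 1).eval z = (v 1).eval z * 1
            rw [mul_one]
          · show (v 2).eval z = (v 1).eval z * 0
            rw [h0, Polynomial.eval_zero, mul_zero]
        rw [this, eval_smul (hF k), Polynomial.eval_mul, Polynomial.eval_pow, Polynomial.eval_C]
      rw [hfk 0, hfk 1] at hf01
      have h3 : v 1 ^ 3 * (Polynomial.C (eval ![q, 1, 0] (F 0)) -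
          Polynomial.X * Polynomial.C (eval ![q, 1, 0] (F 1))) = 0 := by
        linear_combination hf01
      have h4 := (mul_eq_zero.1 h3).resolve_left (pow_ne_zero 3 hv1)
      have h5 := congrArg (fun p => Polynomial.coeff p 1) h4
      simp only [Polynomial.coeff_sub, Polynomial.coeff_C_succ, Polynomial.coeff_X_mul,
        Polynomial.coeff_C_zero, Polynomial.coeff_zero] at h5
      have h6 : eval ![q, 1, 0] (F 1) = 0 := by linear_combination -h5
      apply hf1
      rw [hfk 1, h6, Polynomial.C_0, mul_zero]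
    have h1 : v 0 ^ 4 * (v 0 ^ 2 + 3 * v 1 ^ 2) ^ 2 = 0 := by
      unfold Ef at hEv
      rw [h0] at hEv
      linear_combination hEv
    rcases mul_eq_zero.1 h1 with h2 | h2
    · apply hcon 0
      rw [Polynomial.C_0, zero_mul]
      exact pow_eq_zero_iff (by norm_num) |>.1 h2
    · have h3 : v 0 ^ 2 + 3 * v 1 ^ 2 = 0 := pow_eq_zero_iff (by norm_num) |>.1 h2
      obtain ⟨ω, hω⟩ := IsAlgClosed.exists_pow_nat_eq (-3 : K) (n := 2) (by norm_num)
      have hω' : (Polynomial.C ω : Polynomial K) ^ 2 = -3 := by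
        rw [← Polynomial.C_pow, hω]
        simp only [map_neg, map_ofNat]
      have h4 : (v 0 - Polynomial.C ω * v 1) * (v 0 - Polynomial.C (-ω) * v 1) = 0 := by
        rw [Polynomial.C_neg]
        linear_combination h3 - v 1 ^ 2 * hω'
      rcases mul_eq_zero.1 h4 with h5 | h5
      · exact hcon ω (sub_eq_zero.1 h5)
      · exact hcon (-ω) (sub_eq_zero.1 h5)
  -- passing to the field of rational functions
  let V : Fin 3 → RatFunc K := fun i => algebraMap (Polynomial K) (RatFunc K) (v i)
  have hVE : Ef (V 0) (V 1) (V 2) = 0 := by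
    have := congrArg (algebraMap (Polynomial K) (RatFunc K)) hEv
    rw [map_zero] at this
    rw [← this]
    simp only [V, Ef, map_add, map_sub, map_mul, map_pow, map_ofNat]
  have hV2 : V 2 ≠ 0 := RatFunc.algebraMap_ne_zero hv2
  have hchar : CharZero (RatFunc K) :=
    charZero_of_injective_algebraMap (algebraMap K (RatFunc K)).injective
  have e02 := rel02 hVE
  have e12 := rel12 hVE
  set S := Af (V 0) (V 1) (V 2) with hS
  set R := 24 * V 2 ^ 3 with hR
  have hR0 : R ≠ 0 := mul_ne_zero (by norm_num) (pow_ne_zero 3 hV2)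
  have hu2 : u2 S R ≠ 0 := by
    intro h0
    rw [h0, mul_zero] at e02 e12
    have h3 : u0 S R = 0 := (mul_eq_zero.1 e02.symm).resolve_left hV2
    have h4 : u1 S R = 0 := (mul_eq_zero.1 e12.symm).resolve_left hV2
    exact hR0 (u_eq_zero h3 h4).2
  set ρ := S / R with hρ
  obtain ⟨s0, s1, s2⟩ := u_scale R ρ (1 : RatFunc K)
  have hRρ : R * ρ = S := by rw [hρ]; field_simp
  rw [hRρ, mul_one] at s0 s1 s2
  set lam := V 2 * R ^ 8 / u2 S R with hlam
  have hlam0 : lam ≠ 0 := div_ne_zero (mul_ne_zero hV2 (pow_ne_zero 8 hR0)) hu2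
  let U : Fin 3 → RatFunc K := fun i => Polynomial.aeval ρ (uu K i)
  have hU0 : U 0 = u0 ρ 1 := by simp [U, uu, u0, map_ofNat]
  have hU1 : U 1 = u1 ρ 1 := by simp [U, uu, u1, map_ofNat]
  have hU2 : U 2 = u2 ρ 1 := by simp [U, uu, u2, map_ofNat]
  have hVU : V = fun i => lam * U i := by
    funext i
    fin_cases i
    · show V 0 = lam * U 0
      rw [hU0, hlam]
      field_simp
      linear_combination e02 + V 2 * s0
    · show V 1 = lam * U 1
      rw [hU1, hlam]
      field_simp
      linear_combination e12 + V 2 * s1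
    · show V 2 = lam * U 2
      rw [hU2, hlam]
      field_simp
      linear_combination s2
  have hfV : ∀ k, algebraMap (Polynomial K) (RatFunc K) (f k) = lam ^ 3 * aeval U (F k) := by
    intro k
    have h1 : algebraMap (Polynomial K) (RatFunc K) (f k) = aeval V (F k) := by
      show algebraMap (Polynomial K) (RatFunc K) (aeval v (F k)) = _
      induction F k using MvPolynomial.induction_on with
      | C a => simp
      | add p q hp hq => simp only [map_add, hp, hq]
      | mul_X p i hp => simp only [map_mul, hp, aeval_X]; rfl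
    rw [h1, hVU]
    exact aeval_smul (hF k) lam U
  have hUp : ∀ p : MvPolynomial (Fin 3) K, Polynomial.aeval ρ (aeval (uu K) p) = aeval U p :=
    fun p => aeval_aeval_poly (uu K) p ρ
  have hmob : Polynomial.aeval ρ (aeval (uu K) (F 0)) =
      RatFunc.X * Polynomial.aeval ρ (aeval (uu K) (F 1)) := by
    rw [hUp, hUp]
    apply mul_left_cancel₀ (pow_ne_zero 3 hlam0)
    rw [← hfV, hf01, map_mul, hfV, RatFunc.algebraMap_X]
    ring
  have hmob1 : Polynomial.aeval ρ (aeval (uu K) (F 1)) ≠ 0 := by
    rw [hUp]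
    intro h0
    have h1 := hfV 1
    rw [h0, mul_zero] at h1
    exact RatFunc.algebraMap_ne_zero hf1 h1
  obtain ⟨α, β, γ, δ, hdet, hmo⟩ := MobiusLemma.mobius ρ _ _ hmob hmob1
  -- the transformed pair is proportional to the standard one
  obtain ⟨l, hl1, hl0⟩ := proportional (F₀ := C α * F 0 + C β * F 1)
    (F₁ := C γ * F 0 + C δ * F 1)
    (by
      have h1 := ((hF 0).C_mul α).add ((hF 1).C_mul β)
      exact h1)
    (by
      have h1 := ((hF 0).C_mul γ).add ((hF 1).C_mul δ)
      exact h1)
    (by
      simp only [map_add, map_mul, algHom_C, Polynomial.algebraMap_eq]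
      exact hmo)
  have hl : l ≠ 0 := by
    rintro rfl
    rw [C_0, zero_mul] at hl1 hl0
    have h24 : (24 : MvPolynomial (Fin 3) K) ≠ 0 := by
      have : (24 : MvPolynomial (Fin 3) K) = C 24 := by simp only [map_ofNat]
      rw [this, Ne, C_eq_zero]
      norm_num
    have hl0' := (mul_eq_zero.1 hl0).resolve_left h24
    have h1 : C (α * δ - β * γ) * F 1 = 0 := by
      rw [C_sub, C_mul, C_mul]
      linear_combination C α * hl1 - C γ * hl0'
    have h2 := (mul_eq_zero.1 h1).resolve_left (fun h => hdet (C_eq_zero.1 h))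
    apply hf1
    show aeval v (F 1) = 0
    rw [h2, map_zero]
  -- choose a general point
  obtain ⟨i, hi⟩ : ∃ i, ev F (ev G x₀) i ≠ 0 := by
    by_contra hcon
    push Not at hcon
    exact hx₀ (funext hcon)
  have hne1 : (aeval G (F i) : MvPolynomial (Fin 3) K) ≠ 0 := by
    intro h0
    apply hi
    show eval (ev G x₀) (F i) = 0
    rw [← eval_aeval', h0, map_zero]
  have hne2 : (C γ * X 0 + C δ * X 1 : MvPolynomial (Fin 3) K) ≠ 0 := by
    intro h0
    have h1 := congrArg (eval (![1, 0, 0] : Fin 3 → K)) h0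
    have h2 := congrArg (eval (![0, 1, 0] : Fin 3 → K)) h0
    simp at h1 h2
    apply hdet
    rw [h1, h2]
    ring
  have hne3 : ((24 * (C α * X 0 + C β * X 1)) ^ 4 + 16384 * (C γ * X 0 + C δ * X 1) ^ 4 :
      MvPolynomial (Fin 3) K) ≠ 0 := by
    intro h0
    have h1 := congrArg (eval (![δ, -γ, 0] : Fin 3 → K)) h0
    simp only [map_add, map_mul, map_pow, map_ofNat, eval_C, eval_X, map_zero,
      Matrix.cons_val_zero, Matrix.cons_val_one] at h1
    have h2 : (24 * (α * δ - β * γ)) ^ 4 = 0 := by linear_combination h1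
    exact mul_ne_zero (by norm_num) hdet (pow_eq_zero_iff (by norm_num) |>.1 h2)
  obtain ⟨x, hx⟩ : ∃ x, eval x (aeval G (F i) * (C γ * X 0 + C δ * X 1) *
      ((24 * (C α * X 0 + C β * X 1)) ^ 4 + 16384 * (C γ * X 0 + C δ * X 1) ^ 4)) ≠ 0 := by
    by_contra hcon
    push Not at hcon
    apply mul_ne_zero (mul_ne_zero hne1 hne2) hne3
    apply MvPolynomial.funext
    intro x
    rw [hcon x, map_zero]
  rw [map_mul, map_mul] at hx
  have hxF : ev F (ev G x) ≠ 0 := by
    intro h0
    apply left_ne_zero_of_mul (left_ne_zero_of_mul hx)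
    rw [eval_aeval']
    exact congrFun h0 i
  have hx1 : γ * x 0 + δ * x 1 ≠ 0 := by
    have := right_ne_zero_of_mul (left_ne_zero_of_mul hx)
    simpa using this
  have hx4 : (24 * (α * x 0 + β * x 1)) ^ 4 + 16384 * (γ * x 0 + δ * x 1) ^ 4 ≠ 0 := by
    have := right_ne_zero_of_mul hx
    simpa using this
  set κ := 24 * (α * x 0 + β * x 1) / (γ * x 0 + δ * x 1) with hκ
  have hκ4 : κ ^ 4 ≠ -16384 := by
    intro h0
    apply hx4
    rw [hκ, div_pow, div_eq_iff (pow_ne_zero 4 hx1)] at h0
    linear_combination h0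
  -- the restriction of the map to a line through `(0:0:1)`
  set Q : Fin 3 → K := ![0, 0, 1] with hQ
  let g : Fin 3 → Polynomial K := fun j => LineParam.restr x Q (G j)
  have hg : ∀ z, (fun j => (g j).eval z) = ev G (x + z • Q) := by
    intro z
    funext j
    exact LineParam.eval_restr x Q z (G j)
  have hQ0 : ∀ z : K, (x + z • Q) 0 = x 0 := by intro z; simp [hQ]
  have hQ1 : ∀ z : K, (x + z • Q) 1 = x 1 := by intro z; simp [hQ]
  have hQ2 : ∀ z : K, (x + z • Q) 2 = x 2 + z := by intro z; simp [hQ]
  have hΦ : g 0 ^ 3 + 3 * g 0 * g 1 ^ 2 + 12 * g 1 * g 2 ^ 2 - Polynomial.C κ * g 2 ^ 3 = 0 := by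
    apply Polynomial.funext
    intro z
    obtain ⟨c, hc⟩ := hFG (x + z • Q)
    have c0 : eval (ev G (x + z • Q)) (F 0) = c * x 0 := by
      have := congrFun hc 0
      rw [Pi.smul_apply, hQ0] at this
      exact this
    have c1 : eval (ev G (x + z • Q)) (F 1) = c * x 1 := by
      have := congrFun hc 1
      rw [Pi.smul_apply, hQ1] at this
      exact this
    have d1 := congrArg (eval (ev G (x + z • Q))) hl1
    have d0 := congrArg (eval (ev G (x + z • Q))) hl0
    simp only [map_add, map_mul, map_pow, eval_C, eval_X, map_ofNat, c0, c1, Af] at d0 d1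
    have g0 : (g 0).eval z = ev G (x + z • Q) 0 := congrFun (hg z) 0
    have g1 : (g 1).eval z = ev G (x + z • Q) 1 := congrFun (hg z) 1
    have g2 : (g 2).eval z = ev G (x + z • Q) 2 := congrFun (hg z) 2
    simp only [Polynomial.eval_add, Polynomial.eval_sub, Polynomial.eval_mul, Polynomial.eval_pow,
      Polynomial.eval_C, Polynomial.eval_ofNat, Polynomial.eval_zero, g0, g1, g2]
    apply mul_left_cancel₀ (mul_ne_zero hl hx1)
    have e3 : (γ * x 0 + δ * x 1) * κ = 24 * (α * x 0 + β * x 1) := by
      rw [hκ]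
      field_simp
    linear_combination (-(γ * x 0 + δ * x 1)) * d0 + 24 * (α * x 0 + β * x 1) * d1 -
      l * (ev G (x + z • Q) 2) ^ 3 * e3
  have hgne : ∃ j, g j ≠ 0 := by
    by_contra hcon
    push Not at hcon
    apply hxF
    have h1 : ev G x = 0 := by
      have h2 := hg 0
      rw [zero_smul, add_zero] at h2
      rw [← h2]
      funext j
      rw [hcon j, Polynomial.eval_zero]
      rfl
    rw [h1, hF0]
  obtain ⟨w', c, hwc⟩ := SmoothCubic.no_param hκ4 g hgne hΦ
  have hGz : ∀ z, ev G (x + z • Q) = w'.eval z • c := by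
    intro z
    rw [← hg z]
    funext j
    rw [hwc j, Polynomial.eval_mul, Polynomial.eval_C]
    rfl
  have hFz : ∀ z, ev F (ev G (x + z • Q)) = w'.eval z ^ 3 • ev F c := by
    intro z
    rw [hGz, ev_smul hF]
  have hFx : ev F (ev G x) = w'.eval 0 ^ 3 • ev F c := by
    have h1 := hFz 0
    rwa [zero_smul, add_zero] at h1
  have hFc : ev F c ≠ 0 := by
    intro h0
    rw [h0, smul_zero] at hFx
    exact hxF hFx
  have hw0 : w'.eval 0 ≠ 0 := by
    intro h0
    rw [h0] at hFx
    apply hxF
    rw [hFx]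
    simp
  have hw'0 : w' ≠ 0 := by
    rintro rfl
    exact hw0 Polynomial.eval_zero
  obtain ⟨z₁, hz₁⟩ : ∃ z, (Polynomial.X * w').eval z ≠ 0 := by
    by_contra hcon
    push Not at hcon
    apply mul_ne_zero Polynomial.X_ne_zero hw'0
    apply Polynomial.funext
    intro z
    rw [hcon z, Polynomial.eval_zero]
  rw [Polynomial.eval_mul, Polynomial.eval_X] at hz₁
  have hz1 : z₁ ≠ 0 := left_ne_zero_of_mul hz₁
  have hwz1 : w'.eval z₁ ≠ 0 := right_ne_zero_of_mul hz₁
  obtain ⟨c0, hc0⟩ := hFG x
  obtain ⟨c1, hc1⟩ := hFG (x + z₁ • Q)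
  rw [hFx] at hc0
  rw [hFz] at hc1
  have hc0' : c0 ≠ 0 := by
    rintro rfl
    rw [zero_smul] at hc0
    exact hFc ((smul_eq_zero.1 hc0).resolve_left (pow_ne_zero 3 hw0))
  set a := w'.eval 0 ^ 3 with ha
  set b := w'.eval z₁ ^ 3 with hb
  have ha0 : a ≠ 0 := pow_ne_zero 3 hw0
  have p0 : a * ev F c 0 = c0 * x 0 := congrFun hc0 0
  have p1 : a * ev F c 1 = c0 * x 1 := congrFun hc0 1
  have p2 : a * ev F c 2 = c0 * x 2 := congrFun hc0 2
  have q0 : b * ev F c 0 = c1 * x 0 := by
    have := congrFun hc1 0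
    rw [Pi.smul_apply, Pi.smul_apply, hQ0] at this
    exact this
  have q1 : b * ev F c 1 = c1 * x 1 := by
    have := congrFun hc1 1
    rw [Pi.smul_apply, Pi.smul_apply, hQ1] at this
    exact this
  have q2 : b * ev F c 2 = c1 * (x 2 + z₁) := by
    have := congrFun hc1 2
    rw [Pi.smul_apply, Pi.smul_apply, hQ2] at this
    exact this
  have r0 : (b * c0 - a * c1) * x 0 = 0 := by linear_combination a * q0 - b * p0
  have r1 : (b * c0 - a * c1) * x 1 = 0 := by linear_combination a * q1 - b * p1
  have hr : b * c0 - a * c1 = 0 := by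
    by_contra hne
    apply hx1
    rw [(mul_eq_zero.1 r0).resolve_left hne, (mul_eq_zero.1 r1).resolve_left hne]
    ring
  have r2 : a * c1 * z₁ = 0 := by linear_combination x 2 * hr + b * p2 - a * q2
  have hc1' : c1 ≠ 0 := by
    rintro rfl
    rw [zero_smul] at hc1
    exact hFc ((smul_eq_zero.1 hc1).resolve_left (pow_ne_zero 3 hwz1))
  exact mul_ne_zero (mul_ne_zero ha0 hc1') hz1 r2

end Q45.NotInS
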