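import Mathlib
import Pool.Agent.Q45.Idem

/-!
Tropicalization of ideals of monoid algebras, bend congruences, and the description of the bend
congruence of a tropicalized prime ideal containing no monomial and no binomial.
-/

namespace Q45.TropBend

open Q45.Idem

/-- The coefficientwise valuation of an element of a monoid algebra. -/
noncomputable def trop {K S M : Type*} [Field K] [Semifield S] (v : K → S) (hv0 : v 0 = 0)
    (f : AddMonoidAlgebra K M) : AddMonoidAlgebra S M :=
  AddMonoidAlgebra.ofCoeff (f.coeff.mapRange v hv0)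

/-- The tropicalization of an ideal: the set of the tropicalizations of its elements. -/
def tropIdeal {K S M : Type*} [Field K] [Semifield S] [AddCommMonoid M] (v : K → S)
    (hv0 : v 0 = 0) (I : Ideal (AddMonoidAlgebra K M)) : Set (AddMonoidAlgebra S M) :=
  {φ | ∃ f ∈ I, trop v hv0 f = φ}

/-- The bend relations of the elements of `J`: `φ ∼ φ` with one term of its support deleted. -/
def BendRel {S M : Type*} [Semifield S] (J : Set (AddMonoidAlgebra S M))
    (φ ψ : AddMonoidAlgebra S M) : Prop :=
  φ ∈ J ∧ ∃ u ∈ φ.coeff.support, ψ = φ.erase u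

/-- The bend congruence: the smallest semiring congruence containing the bend relations. -/
noncomputable def Bend {S M : Type*} [Semifield S] [AddCommMonoid M] (J : Set (AddMonoidAlgebra S M)) :
    RingCon (AddMonoidAlgebra S M) :=
  ringConGen (BendRel J)

section Alg

variable {S M : Type*} [Semifield S] [AddCommMonoid M]

theorem idem_alg (hS : ∀ a b : S, a + b = a ∨ a + b = b) (x : AddMonoidAlgebra S M) :
    x + x = x := by
  ext u
  simp only [AddMonoidAlgebra.coeff_add, Finsupp.add_apply]
  exact idem_of_bip hS _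

theorem le_iff {x y : AddMonoidAlgebra S M} : Le x y ↔ ∀ u, Le (x.coeff u) (y.coeff u) := by
  constructor
  · intro h u
    unfold Le at *
    conv_rhs => rw [← h]
    rw [AddMonoidAlgebra.coeff_add, Finsupp.add_apply]
  · intro h
    unfold Le at *
    ext u
    rw [AddMonoidAlgebra.coeff_add, Finsupp.add_apply, h u]

/-- Coefficient of a product with a term, on the translate. -/
theorem coeff_single_mul_add [IsLeftCancelAdd M] (i : M) (a : S) (x : AddMonoidAlgebra S M)
    (w : M) : (AddMonoidAlgebra.single i a * x).coeff (i + w) = a * x.coeff w := by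
  apply AddMonoidAlgebra.coeff_single_mul_eq_mul_coeff
  intro m _
  exact add_right_inj i

theorem coeff_single_mul_of_ne (i : M) (a : S) (x : AddMonoidAlgebra S M)
    (w : M) (h : ∀ d, i + d ≠ w) : (AddMonoidAlgebra.single i a * x).coeff w = 0 :=
  AddMonoidAlgebra.coeff_single_mul_of_forall_add_ne a x h

theorem coeff_single_app {R M : Type*} [Semiring R] [DecidableEq M] (a a' : M) (b : R) :
    (AddMonoidAlgebra.single a b).coeff a' = if a = a' then b else 0 := by
  rw [AddMonoidAlgebra.coeff_single, Finsupp.single_apply]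

end Alg

section Val

variable {K S M : Type*} [Field K] [Semifield S]

/-- The hypotheses on the valuation. -/
structure IsVal (v : K → S) : Prop where
  zero : v 0 = 0
  one : v 1 = 1
  mul : ∀ a b, v (a * b) = v a * v b
  add : ∀ a b, Le (v (a + b)) (v a + v b)

variable {v : K → S}

theorem IsVal.neg (hS : ∀ a b : S, a + b = a ∨ a + b = b) (hv : IsVal v) (a : K) :
    v (-a) = v a := by
  have h1 : v (-1) = 1 := by
    apply eq_one_of_sq hS
    rw [← hv.mul]
    simp [hv.one]
  rw [neg_eq_neg_one_mul, hv.mul, h1, one_mul]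

theorem IsVal.ne_zero (hv : IsVal v) {a : K} (ha : a ≠ 0) : v a ≠ 0 := by
  intro h
  have := hv.mul a a⁻¹
  rw [mul_inv_cancel₀ ha, hv.one, h, zero_mul] at this
  exact one_ne_zero this

theorem IsVal.sum_le (hv : IsVal v) {ι : Type*} (s : Finset ι) (f : ι → K) (c d : S)
    (h : ∀ i ∈ s, Le (c * v (f i)) d) : Le (c * v (∑ i ∈ s, f i)) d := by
  classical
  induction s using Finset.induction_on with
  | empty => simp only [Finset.sum_empty, hv.zero, mul_zero]; exact Idem.zero_le d
  | insert a s ha ih =>
    rw [Finset.sum_insert ha]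
    refine le_trans (mul_le_mul_left c (hv.add _ _)) ?_
    rw [mul_add]
    exact add_le (h a (Finset.mem_insert_self a s))
      (ih fun i hi => h i (Finset.mem_insert_of_mem hi))

end Val

section Main

variable {K S M : Type*} [Field K] [Semifield S] [AddCommMonoid M]

/-- `Dom v I u s h`: the term `s χ^u` is dominated by `h` modulo the ideal. -/
def Dom (v : K → S) (I : Ideal (AddMonoidAlgebra K M)) (u : M) (s : S)
    (h : AddMonoidAlgebra S M) : Prop :=
  ∃ b : AddMonoidAlgebra K M, AddMonoidAlgebra.single u 1 - b ∈ I ∧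
    ∀ w, Le (s * v (b.coeff w)) (h.coeff w)

/-- The preorder whose symmetric part is the bend congruence. -/
def LeD (v : K → S) (I : Ideal (AddMonoidAlgebra K M)) (g h : AddMonoidAlgebra S M) : Prop :=
  ∀ u, Dom v I u (g.coeff u) h

variable {v : K → S} {I : Ideal (AddMonoidAlgebra K M)}

theorem Dom.mono {u : M} {s : S} {h k : AddMonoidAlgebra S M} (hd : Dom v I u s h)
    (hk : Le h k) : Dom v I u s k := by
  obtain ⟨b, hb, hb'⟩ := hd
  exact ⟨b, hb, fun w => le_trans (hb' w) (le_iff.1 hk w)⟩

theorem dom_zero (u : M) (h : AddMonoidAlgebra S M) : Dom v I u 0 h :=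
  ⟨AddMonoidAlgebra.single u 1, by simp, fun w => by rw [zero_mul]; exact Idem.zero_le _⟩

theorem dom_self (hv : IsVal v) (u : M) (s : S)
    (h : AddMonoidAlgebra S M) (hs : Le s (h.coeff u)) : Dom v I u s h := by
  classical
  refine ⟨AddMonoidAlgebra.single u 1, by simp, fun w => ?_⟩
  rw [coeff_single_app]
  split_ifs with hw
  · subst hw
    rwa [hv.one, mul_one]
  · rw [hv.zero, mul_zero]
    exact Idem.zero_le _

theorem leD_of_le (hv : IsVal v)
    {g h : AddMonoidAlgebra S M} (hgh : Le g h) : LeD v I g h :=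
  fun u => dom_self hv u _ h (le_iff.1 hgh u)

theorem Dom.add (hS : ∀ a b : S, a + b = a ∨ a + b = b) {u : M} {s t : S}
    {h : AddMonoidAlgebra S M} (h₁ : Dom v I u s h) (h₂ : Dom v I u t h) :
    Dom v I u (s + t) h := by
  rcases hS s t with e | e <;> rw [e] <;> assumption

theorem leD_add (hS : ∀ a b : S, a + b = a ∨ a + b = b) {g₁ g₂ h : AddMonoidAlgebra S M}
    (h₁ : LeD v I g₁ h) (h₂ : LeD v I g₂ h) : LeD v I (g₁ + g₂) h := by
  intro u
  rw [AddMonoidAlgebra.coeff_add, Finsupp.add_apply]
  exact (h₁ u).add hS (h₂ u)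

theorem leD_add_add (hS : ∀ a b : S, a + b = a ∨ a + b = b) {g₁ g₂ h₁ h₂ : AddMonoidAlgebra S M}
    (e₁ : LeD v I g₁ h₁) (e₂ : LeD v I g₂ h₂) : LeD v I (g₁ + g₂) (h₁ + h₂) := by
  apply leD_add hS
  · intro u
    exact (e₁ u).mono (le_add_left (idem_alg hS) _ _)
  · intro u
    exact (e₂ u).mono (le_add_right (idem_alg hS) _ _)

theorem smul_mem_ideal (a : K) {x : AddMonoidAlgebra K M} (hx : x ∈ I) : a • x ∈ I := by
  have : a • x = AddMonoidAlgebra.single 0 a * x := by
    ext w
    rw [AddMonoidAlgebra.coeff_smul, Finsupp.smul_apply, AddMonoidAlgebra.coeff_single_zero_mul]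
    rfl
  rw [this]
  exact I.mul_mem_left _ hx

theorem Dom.trans (hv : IsVal v) {u : M} {s : S} {h k : AddMonoidAlgebra S M}
    (h₁ : Dom v I u s h) (h₂ : LeD v I h k) : Dom v I u s k := by
  obtain ⟨b, hb, hb'⟩ := h₁
  choose c hc hc' using h₂
  refine ⟨∑ w ∈ b.coeff.support, b.coeff w • c w, ?_, ?_⟩
  · have e : b = ∑ w ∈ b.coeff.support, b.coeff w • (AddMonoidAlgebra.single w 1 :
        AddMonoidAlgebra K M) := by
      conv_lhs => rw [← AddMonoidAlgebra.sum_coeff_single b]
      simp only [Finsupp.sum, AddMonoidAlgebra.smul_single, smul_eq_mul, mul_one]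
    have e2 : AddMonoidAlgebra.single u 1 - ∑ w ∈ b.coeff.support, b.coeff w • c w =
        (AddMonoidAlgebra.single u 1 - b) +
          ∑ w ∈ b.coeff.support, b.coeff w • (AddMonoidAlgebra.single w 1 - c w) := by
      simp only [smul_sub, Finset.sum_sub_distrib]
      rw [← e]
      abel
    rw [e2]
    exact I.add_mem hb (I.sum_mem fun w _ => smul_mem_ideal _ (hc w))
  · intro x
    rw [AddMonoidAlgebra.coeff_sum, Finsupp.finsetSum_apply]
    apply hv.sum_le
    intro w _
    rw [AddMonoidAlgebra.coeff_smul, Finsupp.smul_apply, smul_eq_mul, hv.mul, ← mul_assoc]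
    exact le_trans (mul_le_mul_right _ (hb' w)) (hc' w x)

theorem leD_trans (hv : IsVal v) {g h k : AddMonoidAlgebra S M}
    (h₁ : LeD v I g h) (h₂ : LeD v I h k) : LeD v I g k :=
  fun u => (h₁ u).trans hv h₂

theorem leD_single_mul [IsLeftCancelAdd M] (hv : IsVal v) {g h : AddMonoidAlgebra S M} (i : M)
    (a : S) (hgh : LeD v I g h) :
    LeD v I (AddMonoidAlgebra.single i a * g) (AddMonoidAlgebra.single i a * h) := by
  intro u
  by_cases hu : ∃ w, i + w = u
  · obtain ⟨w, rfl⟩ := hu
    rw [coeff_single_mul_add]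
    obtain ⟨b, hb, hb'⟩ := hgh w
    refine ⟨AddMonoidAlgebra.single i 1 * b, ?_, ?_⟩
    · have : AddMonoidAlgebra.single (i + w) 1 - AddMonoidAlgebra.single i 1 * b =
          AddMonoidAlgebra.single i (1 : K) * (AddMonoidAlgebra.single w 1 - b) := by
        rw [mul_sub, AddMonoidAlgebra.single_mul_single, one_mul]
      rw [this]
      exact I.mul_mem_left _ hb
    · intro z
      by_cases hz : ∃ y, i + y = z
      · obtain ⟨y, rfl⟩ := hz
        rw [coeff_single_mul_add, coeff_single_mul_add, one_mul, mul_assoc]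
        exact mul_le_mul_left _ (hb' y)
      · push Not at hz
        rw [coeff_single_mul_of_ne i (1 : K) b z hz, hv.zero, mul_zero]
        exact Idem.zero_le _
  · push Not at hu
    rw [coeff_single_mul_of_ne i a g u hu]
    exact dom_zero u _

theorem leD_mul_left [IsLeftCancelAdd M] (hv : IsVal v)
    (hS : ∀ a b : S, a + b = a ∨ a + b = b) {g h : AddMonoidAlgebra S M}
    (k : AddMonoidAlgebra S M) (hgh : LeD v I g h) : LeD v I (k * g) (k * h) := by
  induction k using AddMonoidAlgebra.induction_linear with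
  | zero =>
    simp only [zero_mul]
    exact fun u => dom_zero u _
  | add x y hx hy =>
    rw [add_mul, add_mul]
    exact leD_add_add hS hx hy
  | single m r => exact leD_single_mul hv m r hgh

/-- The congruence given by the preorder. -/
def conD [IsLeftCancelAdd M] (hv : IsVal v) (hS : ∀ a b : S, a + b = a ∨ a + b = b) :
    RingCon (AddMonoidAlgebra S M) where
  r g h := LeD v I g h ∧ LeD v I h g
  iseqv :=
    { refl := fun g => ⟨leD_of_le hv (idem_alg hS g), leD_of_le hv (idem_alg hS g)⟩
      symm := fun h => ⟨h.2, h.1⟩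
      trans := fun h₁ h₂ => ⟨leD_trans hv h₁.1 h₂.1, leD_trans hv h₂.2 h₁.2⟩ }
  add' := fun h₁ h₂ => ⟨leD_add_add hS h₁.1 h₂.1, leD_add_add hS h₁.2 h₂.2⟩
  mul' := by
    intro w x y z h₁ h₂
    constructor
    · refine leD_trans hv (leD_mul_left hv hS w h₂.1) ?_
      rw [mul_comm w z, mul_comm x z]
      exact leD_mul_left hv hS z h₁.1
    · refine leD_trans hv (leD_mul_left hv hS x h₂.2) ?_
      rw [mul_comm x y, mul_comm w y]
      exact leD_mul_left hv hS y h₁.2

theorem bendRel_conD [IsLeftCancelAdd M] (hv : IsVal v)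
    (hS : ∀ a b : S, a + b = a ∨ a + b = b) {g h : AddMonoidAlgebra S M}
    (hb : BendRel (tropIdeal v hv.zero I) g h) : conD (I := I) hv hS g h := by
  classical
  obtain ⟨⟨f, hf, rfl⟩, u, hu, rfl⟩ := hb
  have hne : f.coeff u ≠ 0 := by
    rw [Finsupp.mem_support_iff] at hu
    intro h0
    apply hu
    show (f.coeff.mapRange v hv.zero) u = 0
    rw [Finsupp.mapRange_apply, h0, hv.zero]
  have hle : Le ((trop v hv.zero f).erase u) (trop v hv.zero f) := by
    rw [le_iff]
    intro w
    rw [AddMonoidAlgebra.coeff_erase, Finsupp.erase_apply]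
    split_ifs
    · exact Idem.zero_le _
    · exact idem_of_bip hS _
  constructor
  · intro w
    by_cases hw : w = u
    · subst hw
      refine ⟨AddMonoidAlgebra.single w 1 - (f.coeff w)⁻¹ • f, ?_, ?_⟩
      · rw [sub_sub_cancel]
        exact smul_mem_ideal _ hf
      · intro z
        rw [AddMonoidAlgebra.coeff_sub, Finsupp.sub_apply, AddMonoidAlgebra.coeff_smul,
          Finsupp.smul_apply, coeff_single_app, AddMonoidAlgebra.coeff_erase,
          Finsupp.erase_apply]
        by_cases hz : z = w
        · subst hz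
          rw [if_pos rfl, if_pos rfl, smul_eq_mul, inv_mul_cancel₀ hne, sub_self, hv.zero,
            mul_zero]
          exact Idem.zero_le _
        · rw [if_neg (Ne.symm hz), if_neg hz, zero_sub, hv.neg hS, smul_eq_mul, hv.mul, ← mul_assoc]
          have e1 : (trop v hv.zero f).coeff w = v (f.coeff w) := rfl
          have e2 : (trop v hv.zero f).coeff z = v (f.coeff z) := rfl
          rw [e1, e2, ← hv.mul, mul_inv_cancel₀ hne, hv.one, one_mul]
          exact idem_of_bip hS _
    · apply dom_self hv
      rw [AddMonoidAlgebra.coeff_erase, Finsupp.erase_apply, if_neg hw]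
      exact idem_of_bip hS _
  · exact leD_of_le hv hle

theorem bend_le_conD [IsLeftCancelAdd M] (hv : IsVal v)
    (hS : ∀ a b : S, a + b = a ∨ a + b = b) {g h : AddMonoidAlgebra S M}
    (hb : Bend (tropIdeal v hv.zero I) g h) : LeD v I g h ∧ LeD v I h g := by
  have h1 : Bend (tropIdeal v hv.zero I) ≤ conD (I := I) hv hS :=
    RingCon.ringConGen_le.2 fun x y hxy => bendRel_conD hv hS hxy
  exact h1 hb

theorem bend_add_single (hv : IsVal v) (hS : ∀ a b : S, a + b = a ∨ a + b = b)
    {u : M} {s : S} {h : AddMonoidAlgebra S M} (hd : Dom v I u s h) :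
    Bend (tropIdeal v hv.zero I) (h + AddMonoidAlgebra.single u s) h := by
  classical
  obtain ⟨b, hb, hb'⟩ := hd
  have h1 : Le 1 (v (1 - b.coeff u) + v (b.coeff u)) := by
    have := hv.add (1 - b.coeff u) (b.coeff u)
    rwa [sub_add_cancel, hv.one] at this
  have h2 : Le 1 (v (1 - b.coeff u)) ∨ Le 1 (v (b.coeff u)) := by
    rcases hS (v (1 - b.coeff u)) (v (b.coeff u)) with e | e <;> rw [e] at h1
    · exact Or.inl h1
    · exact Or.inr h1
  rcases h2 with h2 | h2
  · set c := Bend (tropIdeal v hv.zero I) with hc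
    set φ := trop v hv.zero (AddMonoidAlgebra.single u 1 - b) with hφ
    have hφu : φ.coeff u = v (1 - b.coeff u) := by
      show v ((AddMonoidAlgebra.single u (1 : K) - b).coeff u) = _
      rw [AddMonoidAlgebra.coeff_sub, Finsupp.sub_apply, coeff_single_app,
        if_pos rfl]
    have hφw : ∀ w, w ≠ u → φ.coeff w = v (b.coeff w) := by
      intro w hw
      show v ((AddMonoidAlgebra.single u (1 : K) - b).coeff w) = _
      rw [AddMonoidAlgebra.coeff_sub, Finsupp.sub_apply, coeff_single_app,
        if_neg (Ne.symm hw), zero_sub, hv.neg hS]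
    have hφc : c φ (φ.erase u) := by
      apply RingConGen.Rel.of
      refine ⟨⟨AddMonoidAlgebra.single u 1 - b, hb, rfl⟩, u, ?_, rfl⟩
      rw [Finsupp.mem_support_iff, hφu]
      exact not_le_zero_of_one_le h2
    have h3 : c (h + AddMonoidAlgebra.single 0 s * φ) (h + AddMonoidAlgebra.single 0 s * φ.erase u) :=
      c.add (c.refl h) (c.mul (c.refl _) hφc)
    have h4 : h + AddMonoidAlgebra.single 0 s * φ.erase u = h := by
      ext w
      rw [AddMonoidAlgebra.coeff_add, Finsupp.add_apply, AddMonoidAlgebra.coeff_single_zero_mul,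
        AddMonoidAlgebra.coeff_erase, Finsupp.erase_apply]
      by_cases hw : w = u
      · rw [if_pos hw, mul_zero, add_zero]
      · rw [if_neg hw, hφw w hw, add_comm]
        exact hb' w
    have h5 : h + AddMonoidAlgebra.single 0 s * φ + AddMonoidAlgebra.single u s =
        h + AddMonoidAlgebra.single 0 s * φ := by
      ext w
      rw [AddMonoidAlgebra.coeff_add, Finsupp.add_apply, AddMonoidAlgebra.coeff_add,
        Finsupp.add_apply, AddMonoidAlgebra.coeff_single_zero_mul,
        coeff_single_app]
      split_ifs with hw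
      · subst hw
        rw [add_assoc]
        congr 1
        rw [add_comm, hφu]
        have := mul_le_mul_left s h2
        rwa [mul_one] at this
      · rw [add_zero]
    rw [h4] at h3
    have h6 := c.add (c.symm h3) (c.refl (AddMonoidAlgebra.single u s))
    rw [h5] at h6
    exact c.trans h6 h3
  · have h3 : Le s (h.coeff u) := by
      have := mul_le_mul_left s h2
      rw [mul_one] at this
      exact le_trans this (hb' u)
    have h4 : h + AddMonoidAlgebra.single u s = h := by
      ext w
      rw [AddMonoidAlgebra.coeff_add, Finsupp.add_apply, coeff_single_app]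
      split_ifs with hw
      · subst hw
        rw [add_comm]
        exact h3
      · rw [add_zero]
    rw [h4]
    exact (Bend (tropIdeal v hv.zero I)).refl h

theorem bend_of_leD (hv : IsVal v) (hS : ∀ a b : S, a + b = a ∨ a + b = b)
    {g h : AddMonoidAlgebra S M} (hd : LeD v I g h) :
    Bend (tropIdeal v hv.zero I) (h + g) h := by
  classical
  set c := Bend (tropIdeal v hv.zero I) with hc
  have key : ∀ T : Finset M, c (h + ∑ w ∈ T, AddMonoidAlgebra.single w (g.coeff w)) h := by
    intro T
    induction T using Finset.induction_on with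
    | empty => simp only [Finset.sum_empty, add_zero]; exact c.refl h
    | insert a T ha ih =>
      rw [Finset.sum_insert ha, ← add_assoc]
      have h1 : c (h + AddMonoidAlgebra.single a (g.coeff a)) h := bend_add_single hv hS (hd a)
      exact c.trans (c.add h1 (c.refl _)) ih
  have := key g.coeff.support
  have e : ∑ w ∈ g.coeff.support, AddMonoidAlgebra.single w (g.coeff w) = g :=
    AddMonoidAlgebra.sum_coeff_single g
  rwa [e] at this

theorem bend_iff [IsLeftCancelAdd M] (hv : IsVal v)
    (hS : ∀ a b : S, a + b = a ∨ a + b = b) {g h : AddMonoidAlgebra S M} :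
    Bend (tropIdeal v hv.zero I) g h ↔ LeD v I g h ∧ LeD v I h g := by
  constructor
  · exact bend_le_conD hv hS
  · rintro ⟨h1, h2⟩
    set c := Bend (tropIdeal v hv.zero I) with hc
    have e1 : c (h + g) h := bend_of_leD hv hS h1
    have e2 : c (g + h) g := bend_of_leD hv hS h2
    rw [add_comm] at e2
    exact c.trans (c.symm e2) e1

end Main

end Q45.TropBend
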