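import Mathlib
import Pool.Agent.Q45.TropBend

/-!
Cancellative elements of the quotient of `S[M]` by the bend congruence of a tropicalized prime
ideal without monomials and binomials.
-/

namespace Q45.TropCanc

open Q45.Idem Q45.TropBend

variable {K S M : Type*} [Field K] [Semifield S] [AddCommMonoid M]

/-- No monomial and no binomial. -/
structure NoMonBin (I : Ideal (AddMonoidAlgebra K M)) : Prop where
  mon : ∀ (u : M) (c : K), c ≠ 0 → AddMonoidAlgebra.single u c ∉ I
  bin : ∀ (u w : M) (c d : K), u ≠ w → c ≠ 0 → d ≠ 0 →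
    AddMonoidAlgebra.single u c + AddMonoidAlgebra.single w d ∉ I

variable {v : K → S} {I : Ideal (AddMonoidAlgebra K M)}

theorem isLeftCancelAdd (hI : I.IsPrime) (hn : NoMonBin I) : IsLeftCancelAdd M where
  add_left_cancel := by
    intro u a b hab
    by_contra hne
    have h1 : AddMonoidAlgebra.single u (1 : K) *
        (AddMonoidAlgebra.single a 1 + AddMonoidAlgebra.single b (-1)) ∈ I := by
      have : AddMonoidAlgebra.single u (1 : K) *
        (AddMonoidAlgebra.single a 1 + AddMonoidAlgebra.single b (-1)) = 0 := by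
        have hab' : u + a = u + b := hab
        rw [mul_add, AddMonoidAlgebra.single_mul_single, AddMonoidAlgebra.single_mul_single, hab',
          ← AddMonoidAlgebra.single_add]
        simp
      rw [this]
      exact I.zero_mem
    rcases hI.mem_or_mem h1 with h | h
    · exact hn.mon u 1 one_ne_zero h
    · exact hn.bin a b 1 (-1) hne one_ne_zero (neg_ne_zero.2 one_ne_zero) h

/-- Terms are cancellative for the preorder. -/
theorem leD_of_single_mul [IsLeftCancelAdd M] (hv : IsVal v) (hI : I.IsPrime) (hn : NoMonBin I)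
    {i : M} {a : S} (ha : a ≠ 0) {g h : AddMonoidAlgebra S M}
    (hd : LeD v I (AddMonoidAlgebra.single i a * g) (AddMonoidAlgebra.single i a * h)) :
    LeD v I g h := by
  classical
  intro w
  by_cases hg : g.coeff w = 0
  · rw [hg]
    exact dom_zero w h
  have hdw := hd (i + w)
  rw [coeff_single_mul_add] at hdw
  obtain ⟨b, hb, hb'⟩ := hdw
  have hsupp : ∀ z, (∀ d, i + d ≠ z) → b.coeff z = 0 := by
    intro z hz
    have h1 := hb' z
    rw [coeff_single_mul_of_ne i a h z hz] at h1
    have h2 := eq_zero_of_le h1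
    by_contra h3
    exact (mul_ne_zero (mul_ne_zero ha hg) (hv.ne_zero h3)) h2
  have hinj : Function.Injective (fun d : M => i + d) := fun x y hxy => add_left_cancel hxy
  set b' : AddMonoidAlgebra K M :=
    AddMonoidAlgebra.ofCoeff (b.coeff.comapDomain (fun d : M => i + d) hinj.injOn) with hb'def
  have hcoef : ∀ d, b'.coeff d = b.coeff (i + d) := fun d => rfl
  have hbb : AddMonoidAlgebra.single i 1 * b' = b := by
    ext z
    by_cases hz : ∃ d, i + d = z
    · obtain ⟨d, rfl⟩ := hz
      rw [coeff_single_mul_add, one_mul, hcoef]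
    · push Not at hz
      rw [coeff_single_mul_of_ne i (1 : K) b' z hz, hsupp z hz]
  have hmem : AddMonoidAlgebra.single i (1 : K) * (AddMonoidAlgebra.single w 1 - b') ∈ I := by
    rw [mul_sub, AddMonoidAlgebra.single_mul_single, one_mul, hbb]
    exact hb
  have hmem' : AddMonoidAlgebra.single w 1 - b' ∈ I := by
    rcases hI.mem_or_mem hmem with h1 | h1
    · exact absurd h1 (hn.mon i 1 one_ne_zero)
    · exact h1
  refine ⟨b', hmem', fun x => ?_⟩
  have h1 := hb' (i + x)
  rw [coeff_single_mul_add, mul_assoc] at h1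
  rw [hcoef]
  exact le_of_mul_le_mul_left ha h1

section Span

/-- The quotient map as a linear map. -/
noncomputable def qmap (I : Ideal (AddMonoidAlgebra K M)) :
    AddMonoidAlgebra K M →ₐ[K] (AddMonoidAlgebra K M ⧸ I) :=
  Ideal.Quotient.mkₐ K I

theorem qmap_eq_iff (x y : AddMonoidAlgebra K M) : qmap I x = qmap I y ↔ x - y ∈ I :=
  Ideal.Quotient.eq

/-- The span of the classes of the monomials with exponents in `U`. -/
noncomputable def E (I : Ideal (AddMonoidAlgebra K M)) (U : Set M) :
    Submodule K (AddMonoidAlgebra K M ⧸ I) :=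
  Submodule.span K ((fun w => qmap I (AddMonoidAlgebra.single w 1)) '' U)

theorem E_mono {U V : Set M} (h : U ⊆ V) : E I U ≤ E I V :=
  Submodule.span_mono (Set.image_mono h)

theorem exists_rep {U : Set M} {y : AddMonoidAlgebra K M ⧸ I} (hy : y ∈ E I U) :
    ∃ b : AddMonoidAlgebra K M, qmap I b = y ∧ ∀ w, b.coeff w ≠ 0 → w ∈ U := by
  classical
  induction hy using Submodule.span_induction with
  | mem x hx =>
    obtain ⟨w, hw, rfl⟩ := hx
    refine ⟨AddMonoidAlgebra.single w 1, rfl, fun z hz => ?_⟩
    rw [coeff_single_app] at hz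
    split_ifs at hz with h
    · exact h ▸ hw
    · exact absurd rfl hz
  | zero => exact ⟨0, map_zero _, fun w hw => absurd rfl hw⟩
  | add x y _ _ hx hy =>
    obtain ⟨b, hb, hb'⟩ := hx
    obtain ⟨c, hc, hc'⟩ := hy
    refine ⟨b + c, by rw [map_add, hb, hc], fun w hw => ?_⟩
    rw [AddMonoidAlgebra.coeff_add, Finsupp.add_apply] at hw
    by_cases h : b.coeff w = 0
    · rw [h, zero_add] at hw
      exact hc' w hw
    · exact hb' w h
  | smul a x _ hx =>
    obtain ⟨b, hb, hb'⟩ := hx
    refine ⟨a • b, by rw [map_smul, hb], fun w hw => ?_⟩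
    apply hb'
    intro h
    apply hw
    rw [AddMonoidAlgebra.coeff_smul, Finsupp.smul_apply, h, smul_zero]

theorem mem_E_of_rep {U : Set M} (b : AddMonoidAlgebra K M) (hb : ∀ w, b.coeff w ≠ 0 → w ∈ U) :
    qmap I b ∈ E I U := by
  have e : b = ∑ w ∈ b.coeff.support, b.coeff w • (AddMonoidAlgebra.single w 1 :
      AddMonoidAlgebra K M) := by
    conv_lhs => rw [← AddMonoidAlgebra.sum_coeff_single b]
    simp only [Finsupp.sum, AddMonoidAlgebra.smul_single, smul_eq_mul, mul_one]
  rw [e, map_sum]
  refine Submodule.sum_mem _ fun w hw => ?_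
  rw [map_smul]
  exact Submodule.smul_mem _ _ (Submodule.subset_span
    ⟨w, hb w (Finsupp.mem_support_iff.1 hw), rfl⟩)

instance finE (U : Finset M) : FiniteDimensional K (E I (U : Set M)) :=
  FiniteDimensional.span_of_finite K ((Finset.finite_toSet U).image _)

theorem finrank_E_le (U : Finset M) : Module.finrank K (E I (U : Set M)) ≤ U.card := by
  classical
  have h1 : E I (U : Set M) = Submodule.span K
      ((U.image fun w => qmap I (AddMonoidAlgebra.single w 1) : Finset _) :
        Set (AddMonoidAlgebra K M ⧸ I)) := by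
    rw [E, Finset.coe_image]
  rw [h1]
  exact le_trans (finrank_span_finset_le_card _) Finset.card_image_le

/-- Multiplication by a monomial. -/
noncomputable def mulBy (I : Ideal (AddMonoidAlgebra K M)) (i : M) :
    (AddMonoidAlgebra K M ⧸ I) →ₗ[K] (AddMonoidAlgebra K M ⧸ I) :=
  LinearMap.mulLeft K (qmap I (AddMonoidAlgebra.single i 1))

theorem mulBy_apply (i w : M) : mulBy I i (qmap I (AddMonoidAlgebra.single w 1)) =
    qmap I (AddMonoidAlgebra.single (i + w) 1) := by
  rw [mulBy, LinearMap.mulLeft_apply, ← map_mul, AddMonoidAlgebra.single_mul_single, one_mul]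

theorem mulBy_injective (hI : I.IsPrime) (hn : NoMonBin I) (i : M) :
    Function.Injective (mulBy I i) := by
  have : IsDomain (AddMonoidAlgebra K M ⧸ I) := Ideal.Quotient.isDomain I
  intro x y hxy
  rw [mulBy, LinearMap.mulLeft_apply, LinearMap.mulLeft_apply] at hxy
  refine mul_left_cancel₀ ?_ hxy
  intro h
  exact hn.mon i 1 one_ne_zero (Ideal.Quotient.eq_zero_iff_mem.1 h)

theorem map_E (i : M) (U : Set M) : (E I U).map (mulBy I i) = E I ((fun w => i + w) '' U) := by
  rw [E, E, Submodule.map_span, Set.image_image, Set.image_image]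
  congr 1
  apply Set.image_congr
  intro w _
  exact mulBy_apply i w

theorem finrank_map_E (hI : I.IsPrime) (hn : NoMonBin I) (i : M) (U : Set M) :
    Module.finrank K ((E I U).map (mulBy I i)) = Module.finrank K (E I U) :=
  ((E I U).equivMapOfInjective (mulBy I i) (mulBy_injective hI hn i)).finrank_eq.symm

end Span

/-- A nondecreasing bounded sequence of naturals repeats a value. -/
theorem exists_eq_succ (d : ℕ → ℕ) (k : ℕ) (hmono : ∀ n, d n ≤ d (n + 1)) (hb : ∀ n, d n ≤ k) :
    ∃ n, d n = d (n + 1) := by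
  by_contra hcon
  push Not at hcon
  have h1 : ∀ n, n ≤ d n := by
    intro n
    induction n with
    | zero => exact Nat.zero_le _
    | succ n ih =>
      have h2 := hmono n
      have h3 := hcon n
      omega
  have h4 := h1 (k + 1)
  have h5 := hb (k + 1)
  omega

theorem coeff_mul_ne_zero [IsLeftCancelAdd M] (hS : ∀ a b : S, a + b = a ∨ a + b = b)
    (F G : AddMonoidAlgebra S M)
    {i w : M} (hi : F.coeff i ≠ 0) (hw : G.coeff w ≠ 0) : (F * G).coeff (i + w) ≠ 0 := by
  classical
  have h1 : Le (AddMonoidAlgebra.single i (F.coeff i)) F := by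
    rw [le_iff]
    intro z
    rw [coeff_single_app]
    split_ifs with h
    · subst h
      exact idem_of_bip hS _
    · exact Idem.zero_le _
  have h2 := le_iff.1 (mul_le_mul_right G h1) (i + w)
  rw [coeff_single_mul_add] at h2
  intro h3
  rw [h3] at h2
  exact mul_ne_zero hi hw (eq_zero_of_le h2)

/-- The main step: no element with at least two terms is cancellative. -/
theorem not_two [IsLeftCancelAdd M] (hv : IsVal v) (hS : ∀ a b : S, a + b = a ∨ a + b = b)
    (hI : I.IsPrime) (hn : NoMonBin I) (F : AddMonoidAlgebra S M)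
    (hF : ∀ g h : AddMonoidAlgebra S M, (LeD v I (F * g) (F * h) ∧ LeD v I (F * h) (F * g)) →
      LeD v I g h) {i₀ j : M} (hi₀ : F.coeff i₀ ≠ 0) (hj : F.coeff j ≠ 0) (hij : i₀ ≠ j) :
    False := by
  classical
  -- powers of `F` are cancellative
  have hFn : ∀ n : ℕ, ∀ g h : AddMonoidAlgebra S M,
      (LeD v I (F ^ n * g) (F ^ n * h) ∧ LeD v I (F ^ n * h) (F ^ n * g)) → LeD v I g h := by
    intro n
    induction n with
    | zero => intro g h hgh; simpa using hgh.1
    | succ n ih =>
      intro g h hgh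
      rw [pow_succ, mul_assoc, mul_assoc] at hgh
      have h1 := ih _ _ hgh
      have h2 := ih _ _ ⟨hgh.2, hgh.1⟩
      exact hF g h ⟨h1, h2⟩
  -- the diagonal power sums
  set s := F.coeff.support with hs
  have hi₀s : i₀ ∈ s := Finsupp.mem_support_iff.2 hi₀
  have hjs : j ∈ s := Finsupp.mem_support_iff.2 hj
  have hFsum : ∑ i ∈ s, AddMonoidAlgebra.single i (F.coeff i) = F :=
    AddMonoidAlgebra.sum_coeff_single F
  let D : ℕ → AddMonoidAlgebra S M := fun n => ∑ i ∈ s, AddMonoidAlgebra.single i (F.coeff i) ^ n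
  have hpow : ∀ n, F ^ (s.card * n) * D n = F ^ (s.card * n) * F ^ n := by
    intro n
    have := pow_mul_sum_pow (idem_alg hS) s ⟨i₀, hi₀s⟩
      (fun i => AddMonoidAlgebra.single i (F.coeff i)) n (s.card * n) le_rfl
    rw [hFsum] at this
    rw [← pow_add]
    exact this
  have hFD : ∀ n, LeD v I (F ^ n) (D n) := by
    intro n
    apply hFn (s.card * n)
    rw [hpow n]
    exact ⟨leD_of_le hv (idem_alg hS _), leD_of_le hv (idem_alg hS _)⟩
  have hDsupp : ∀ n w, (D n).coeff w ≠ 0 → w ∈ s.image (fun i => n • i) := by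
    intro n w hw
    by_contra hcon
    apply hw
    show (∑ i ∈ s, AddMonoidAlgebra.single i (F.coeff i) ^ n).coeff w = 0
    rw [AddMonoidAlgebra.coeff_sum, Finsupp.finsetSum_apply]
    apply Finset.sum_eq_zero
    intro i hi
    rw [AddMonoidAlgebra.single_pow, coeff_single_app, if_neg]
    rintro rfl
    exact hcon (Finset.mem_image_of_mem _ hi)
  -- the spaces spanned by the supports of the powers
  let U : ℕ → Finset M := fun n => (F ^ n).coeff.support
  have hU : ∀ n w, w ∈ U n ↔ (F ^ n).coeff w ≠ 0 := fun n w => Finsupp.mem_support_iff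
  have hUD : ∀ n, E I (U n : Set M) ≤ E I ((s.image fun i => n • i : Finset M) : Set M) := by
    intro n
    rw [E, Submodule.span_le]
    rintro _ ⟨w, hw, rfl⟩
    obtain ⟨b, hb, hb'⟩ := hFD n w
    have e : qmap I (AddMonoidAlgebra.single w 1) = qmap I b := (qmap_eq_iff _ _).2 hb
    show qmap I (AddMonoidAlgebra.single w 1) ∈ E I ((s.image fun i => n • i : Finset M) : Set M)
    rw [e]
    apply mem_E_of_rep
    intro z hz
    rw [Finset.mem_coe]
    apply hDsupp n z
    intro h0
    have h1 := hb' z
    rw [h0] at h1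
    exact mul_ne_zero ((hU n w).1 hw) (hv.ne_zero hz) (eq_zero_of_le h1)
  have hdim : ∀ n, Module.finrank K (E I (U n : Set M)) ≤ s.card := by
    intro n
    calc Module.finrank K (E I (U n : Set M))
        ≤ Module.finrank K (E I ((s.image fun i => n • i : Finset M) : Set M)) :=
          Submodule.finrank_mono (hUD n)
      _ ≤ (s.image fun i => n • i).card := finrank_E_le _
      _ ≤ s.card := Finset.card_image_le
  have hshift : ∀ n, ∀ i ∈ s, (E I (U n : Set M)).map (mulBy I i) ≤ E I (U (n + 1) : Set M) := by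
    intro n i hi
    rw [map_E]
    apply E_mono
    rintro _ ⟨w, hw, rfl⟩
    rw [Finset.mem_coe, hU, pow_succ']
    exact coeff_mul_ne_zero hS F (F ^ n) (Finsupp.mem_support_iff.1 hi) ((hU n w).1 hw)
  have hmono : ∀ n, Module.finrank K (E I (U n : Set M)) ≤
      Module.finrank K (E I (U (n + 1) : Set M)) := by
    intro n
    rw [← finrank_map_E hI hn i₀ (U n : Set M)]
    exact Submodule.finrank_mono (hshift n i₀ hi₀s)
  obtain ⟨n, hn'⟩ := exists_eq_succ (fun n => Module.finrank K (E I (U n : Set M))) s.card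
    hmono hdim
  have hEq : (E I (U n : Set M)).map (mulBy I i₀) = E I (U (n + 1) : Set M) := by
    apply Submodule.eq_of_le_of_finrank_eq (hshift n i₀ hi₀s)
    rw [finrank_map_E hI hn]
    exact hn'
  -- the monomials `χ^(j+w)` are combinations of the `χ^(i₀+w')`
  have hrep : ∀ w ∈ U n, ∃ b : AddMonoidAlgebra K M,
      AddMonoidAlgebra.single (j + w) 1 - b ∈ I ∧
        ∀ z, b.coeff z ≠ 0 → ∃ w' ∈ U n, i₀ + w' = z := by
    intro w hw
    have h1 : qmap I (AddMonoidAlgebra.single (j + w) 1) ∈
        E I ((fun w => i₀ + w) '' (U n : Set M)) := by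
      rw [← map_E, hEq, ← mulBy_apply]
      apply hshift n j hjs
      exact Submodule.mem_map_of_mem (Submodule.subset_span ⟨w, hw, rfl⟩)
    obtain ⟨b, hb, hb'⟩ := exists_rep h1
    refine ⟨b, (qmap_eq_iff _ _).1 hb.symm, fun z hz => ?_⟩
    obtain ⟨w', hw', h2⟩ := hb' z hz
    exact ⟨w', hw', h2⟩
  -- choose a small constant
  have hlam : ∃ l : S, l ≠ 0 ∧ ∀ w ∈ U n, Dom v I (j + w) (l * (F ^ n).coeff w)
      (AddMonoidAlgebra.single i₀ 1 * F ^ n) := by
    apply exists_common hS (U n) (fun w l => Dom v I (j + w) (l * (F ^ n).coeff w)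
      (AddMonoidAlgebra.single i₀ 1 * F ^ n))
    · rintro w - a b hab ⟨c, hc, hc'⟩
      exact ⟨c, hc, fun z => le_trans (mul_le_mul_right _ (mul_le_mul_right _ hab)) (hc' z)⟩
    · intro w hw
      obtain ⟨b, hb, hb'⟩ := hrep w hw
      obtain ⟨l, hl, hl'⟩ := exists_common hS b.coeff.support
        (fun z l => Le (l * (F ^ n).coeff w * v (b.coeff z))
          ((AddMonoidAlgebra.single i₀ 1 * F ^ n).coeff z))
        (fun z _ x y hxy hy => by
          exact Idem.le_trans (Idem.mul_le_mul_right _ (Idem.mul_le_mul_right _ hxy)) hy)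
        (fun z hz => by
          obtain ⟨w', hw', rfl⟩ := hb' z (Finsupp.mem_support_iff.1 hz)
          rw [coeff_single_mul_add, one_mul]
          obtain ⟨c, hc, hc'⟩ := exists_mul_le ((F ^ n).coeff w * v (b.coeff (i₀ + w')))
            ((F ^ n).coeff w') ((hU n w').1 hw')
          refine ⟨c, hc, ?_⟩
          rw [mul_assoc]
          rcases hc' with h | h
          · rw [h, mul_zero]; exact Idem.zero_le _
          · rw [h]; exact idem_of_bip hS _)
      refine ⟨l, hl, b, hb, fun z => ?_⟩
      by_cases hz : b.coeff z = 0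
      · rw [hz, hv.zero, mul_zero]
        exact Idem.zero_le _
      · exact hl' z (Finsupp.mem_support_iff.2 hz)
  obtain ⟨l, hl, hl'⟩ := hlam
  have hle : LeD v I (AddMonoidAlgebra.single j l * F ^ n) (AddMonoidAlgebra.single i₀ 1 * F ^ n) := by
    intro u
    by_cases hu : ∃ w, j + w = u
    · obtain ⟨w, rfl⟩ := hu
      rw [coeff_single_mul_add]
      by_cases hw : w ∈ U n
      · exact hl' w hw
      · rw [hU, not_not] at hw
        rw [hw, mul_zero]
        exact dom_zero _ _
    · push Not at hu
      rw [coeff_single_mul_of_ne j l (F ^ n) u hu]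
      exact dom_zero u _
  -- cancel
  have hfin : LeD v I (AddMonoidAlgebra.single i₀ 1 + AddMonoidAlgebra.single j l)
      (AddMonoidAlgebra.single i₀ 1) := by
    apply hFn n
    rw [mul_comm (F ^ n), mul_comm (F ^ n), add_mul]
    constructor
    · exact leD_add hS (leD_of_le hv (idem_alg hS _)) hle
    · exact leD_of_le hv (le_add_left (idem_alg hS) _ _)
  obtain ⟨b, hb, hb'⟩ := hfin j
  rw [AddMonoidAlgebra.coeff_add, Finsupp.add_apply, coeff_single_app, if_neg hij, zero_add,
    coeff_single_app, if_pos rfl] at hb'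
  have hbs : b = AddMonoidAlgebra.single i₀ (b.coeff i₀) := by
    ext z
    rw [coeff_single_app]
    split_ifs with hz
    · rw [hz]
    · have h1 := hb' z
      rw [coeff_single_app, if_neg hz] at h1
      by_contra h2
      exact mul_ne_zero hl (hv.ne_zero h2) (eq_zero_of_le h1)
  rw [hbs] at hb
  by_cases hc : b.coeff i₀ = 0
  · rw [hc, AddMonoidAlgebra.single_zero, sub_zero] at hb
    exact hn.mon j 1 one_ne_zero hb
  · refine hn.bin j i₀ 1 (-b.coeff i₀) (Ne.symm hij) one_ne_zero (neg_ne_zero.2 hc) ?_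
    rw [AddMonoidAlgebra.single_neg, ← sub_eq_add_neg]
    exact hb

/-- Cancellative elements of the quotient are exactly the classes of the terms. -/
theorem cancellative_iff (hv : IsVal v) (hS : ∀ a b : S, a + b = a ∨ a + b = b)
    (hI : I.IsPrime) (hn : NoMonBin I) (x : (Bend (tropIdeal v hv.zero I)).Quotient) :
    (∀ g h : (Bend (tropIdeal v hv.zero I)).Quotient, x * g = x * h → g = h) ↔
      ∃ (u : M) (a : S), a ≠ 0 ∧
        x = ((AddMonoidAlgebra.single u a : AddMonoidAlgebra S M) :
          (Bend (tropIdeal v hv.zero I)).Quotient) := by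
  classical
  have : IsLeftCancelAdd M := isLeftCancelAdd hI hn
  constructor
  · intro hx
    obtain ⟨F, rfl⟩ := (Bend (tropIdeal v hv.zero I)).mk'_surjective x
    have hF : ∀ g h : AddMonoidAlgebra S M,
        (LeD v I (F * g) (F * h) ∧ LeD v I (F * h) (F * g)) → LeD v I g h := by
      intro g h hgh
      have h1 : (Bend (tropIdeal v hv.zero I)) (F * g) (F * h) := (bend_iff hv hS).2 hgh
      have h2 : ((F * g : AddMonoidAlgebra S M) : (Bend (tropIdeal v hv.zero I)).Quotient) =
          ((F * h : AddMonoidAlgebra S M) : (Bend (tropIdeal v hv.zero I)).Quotient) :=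
        (RingCon.eq _).2 h1
      have h3 : ((g : AddMonoidAlgebra S M) : (Bend (tropIdeal v hv.zero I)).Quotient) =
          ((h : AddMonoidAlgebra S M) : (Bend (tropIdeal v hv.zero I)).Quotient) := by
        apply hx
        exact h2
      exact ((bend_iff hv hS).1 ((RingCon.eq _).1 h3)).1
    by_cases h0 : F = 0
    · exfalso
      have h1 : LeD v I (1 : AddMonoidAlgebra S M) 0 := by
        apply hF
        rw [h0, zero_mul, zero_mul]
        exact ⟨fun u => dom_zero u _, fun u => dom_zero u _⟩
      obtain ⟨b, hb, hb'⟩ := h1 0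
      have hb0 : b = 0 := by
        ext z
        have h2 := eq_zero_of_le (hb' z)
        have h3 : (1 : AddMonoidAlgebra S M).coeff 0 = 1 := AddMonoidAlgebra.coeff_one_zero
        rw [h3, one_mul] at h2
        by_contra h4
        exact hv.ne_zero h4 h2
      rw [hb0, sub_zero] at hb
      exact hn.mon 0 1 one_ne_zero hb
    · have hne : ∃ i₀, F.coeff i₀ ≠ 0 := by
        by_contra hcon
        push Not at hcon
        exact h0 (AddMonoidAlgebra.ext (Finsupp.ext hcon))
      obtain ⟨i₀, hi₀⟩ := hne
      refine ⟨i₀, F.coeff i₀, hi₀, ?_⟩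
      have hF1 : F = AddMonoidAlgebra.single i₀ (F.coeff i₀) := by
        ext z
        rw [coeff_single_app]
        split_ifs with hz
        · rw [hz]
        · by_contra h2
          exact not_two hv hS hI hn F hF hi₀ h2 hz
      show ((F : AddMonoidAlgebra S M) : (Bend (tropIdeal v hv.zero I)).Quotient) = _
      exact congrArg _ hF1
  · rintro ⟨i, a, ha, rfl⟩ g h hgh
    obtain ⟨g, rfl⟩ := (Bend (tropIdeal v hv.zero I)).mk'_surjective g
    obtain ⟨h, rfl⟩ := (Bend (tropIdeal v hv.zero I)).mk'_surjective h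
    have h1 : (Bend (tropIdeal v hv.zero I)) (AddMonoidAlgebra.single i a * g)
        (AddMonoidAlgebra.single i a * h) := (RingCon.eq _).1 hgh
    have h2 := (bend_iff hv hS).1 h1
    have h3 : (Bend (tropIdeal v hv.zero I)) g h :=
      (bend_iff hv hS).2 ⟨leD_of_single_mul hv hI hn ha h2.1, leD_of_single_mul hv hI hn ha h2.2⟩
    exact (RingCon.eq _).2 h3

end Q45.TropCanc
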